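import Pool.Agent.Lib.MP_cfac74_al.Misc

/-! Assembly of the blocks. -/

namespace Pool.Agent.Lib.MP_cfac74_al

open Finset

/-- sum over the field with three elements -/
theorem sum_F (g : F → ℕ) : ∑ z : F, g z = g 0 + g 1 + g (-1) := by
  have : (Finset.univ : Finset F) = {0, 1, -1} := by decide
  rw [this, Finset.sum_insert (by decide), Finset.sum_insert (by decide), Finset.sum_singleton]
  ring

/-- The two partial sums for the assembled form. -/
theorem sums {P : Type} [AddCommGroup P] [Module F P] [Fintype P] [DecidableEq P]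
    (L : F × (F × P) → ℕ) (hL : Rz (F × (F × P)) L) (a : ℕ) :
    a * ∑ u : F × (F × P), L u ^ 2 +
      8 * ∑ u ∈ Finset.univ.filter (fun u : F × (F × P) => u.1 = 0), L u ^ 2 =
    (a + 8) * (∑ s : P, L (0, (0, s)) ^ 2 + 2 * ∑ s : P, L (0, (1, s)) ^ 2) +
      2 * a * (∑ s : P, L (1, (0, s)) ^ 2 + ∑ s : P, L (1, (1, s)) ^ 2 +
        ∑ s : P, L (1, (-1, s)) ^ 2) := by
  have h1 : ∑ u : F × (F × P), L u ^ 2 = ∑ z : F, ∑ y : F, ∑ s : P, L (z, (y, s)) ^ 2 := by
    rw [Fintype.sum_prod_type]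
    refine Finset.sum_congr rfl fun z _ => ?_
    rw [Fintype.sum_prod_type]
  have h2 : ∑ u ∈ Finset.univ.filter (fun u : F × (F × P) => u.1 = 0), L u ^ 2 =
      ∑ y : F, ∑ s : P, L (0, (y, s)) ^ 2 := by
    rw [Finset.sum_filter, Fintype.sum_prod_type, sum_F]
    have n1 : ¬ ((1 : F) = 0) := by decide
    have n2 : ¬ ((-1 : F) = 0) := by decide
    simp only [n1, n2, if_true, if_false, Finset.sum_const_zero, add_zero]
    rw [Fintype.sum_prod_type]
  have hneg : ∀ z y : F, ∑ s : P, L (-z, (-y, s)) ^ 2 = ∑ s : P, L (z, (y, s)) ^ 2 := by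
    intro z y
    rw [← Equiv.sum_comp (Equiv.neg P)]
    refine Finset.sum_congr rfl fun s _ => ?_
    rw [← hL.neg]
    change L (- -z, (- -y, - -s)) ^ 2 = _
    rw [neg_neg, neg_neg, neg_neg]
  rw [h1, h2, sum_F, sum_F, sum_F, sum_F]
  have e1 := hneg 0 1
  have e2 := hneg 1 0
  have e3 := hneg 1 (-1)
  have e4 := hneg 1 1
  rw [neg_zero] at e1 e2
  rw [neg_neg] at e3
  rw [e1, e2, e3, e4]
  ring

open Classical in
/-- From a realizable function to a group. -/
theorem group_of_Rz {P : Type} [AddCommGroup P] [Module F P] [Fintype P]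
    (L : F × (F × P) → ℕ) (hL : Rz (F × (F × P)) L)
    (A : Type) [AddCommGroup A] [Finite A] (τ : Twist A) (hA : 2 ≤ Nat.card A)
    (hA' : Odd (Nat.card A)) :
    ∃ (G : Type) (_ : Group G) (_ : Finite G), Odd (Nat.card G) ∧ (∃ a b : G, a * b ≠ b * a) ∧
      Nat.card (ConjClasses G) =
        (Nat.card A + 8) * (∑ s : P, L (0, (0, s)) ^ 2 + 2 * ∑ s : P, L (0, (1, s)) ^ 2) +
        2 * Nat.card A * (∑ s : P, L (1, (0, s)) ^ 2 + ∑ s : P, L (1, (1, s)) ^ 2 +
        ∑ s : P, L (1, (-1, s)) ^ 2) := by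
  have hL' := hL
  obtain ⟨X, Y, _, _, _, _, _, _, B, hB, hc, hlk⟩ := hL
  obtain ⟨G, _, _, h1, h2, h3⟩ := class_formula τ hB hc (AddMonoidHom.fst F (F × P))
  refine ⟨G, inferInstance, inferInstance, ?_, h2 hA, ?_⟩
  · obtain ⟨n, hn⟩ := card_mod X
    obtain ⟨m, hm⟩ := card_mod (F × (F × P))
    rw [h1, ← hc, hn, hm]
    have h3 : ∀ k, Odd (3 ^ k) := fun k => Odd.pow (by decide)
    have h4 : Odd 3 := by decide
    exact hA'.mul ((h4.mul (h3 n)).mul ((h4.mul (h3 n)).mul (h3 m)))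
  · rw [h3, ← sums L hL']
    simp only [hlk]
    rfl

end Pool.Agent.Lib.MP_cfac74_al
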