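import Pool.Agent.Lib.MP_cfac74_al.Grp

/-! Class numbers of the groups built from trilinear forms. -/

namespace Pool.Agent.Lib.MP_cfac74_al

open Finset

theorem exists_dual_ne {U : Type} [AddCommGroup U] [Module F U] (u : U) (hu : u ≠ 0) :
    ∃ w : U →+ F, w u ≠ 0 := by
  by_contra h
  push Not at h
  apply hu
  rw [← Module.forall_dual_apply_eq_zero_iff F u]
  intro φ
  exact h φ.toAddMonoidHom

instance finiteHom {U : Type} [AddCommGroup U] [Finite U] : Finite (U →+ F) :=
  Finite.of_injective (fun f : U →+ F => (f : U → F)) DFunLike.coe_injective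

theorem card_dual {U : Type} [AddCommGroup U] [Module F U] [Finite U] :
    Nat.card (U →+ F) = Nat.card U := by
  have A := pairCount (U := U) (V := U →+ F) (fun u w => w u)
    (fun u u' w => map_add w u u') (fun u w w' => rfl)
  have h1 : Nat.card {v : U →+ F // ∀ u, v u = 0} = 1 := by
    rw [Nat.card_eq_one_iff_unique]
    refine ⟨⟨fun a b => ?_⟩, ⟨⟨0, fun _ => rfl⟩⟩⟩
    apply Subtype.ext
    apply AddMonoidHom.ext
    intro u
    rw [a.2, b.2]
  have h2 : Nat.card {u : U // ∀ v : U →+ F, v u = 0} = 1 := by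
    rw [Nat.card_eq_one_iff_unique]
    refine ⟨⟨fun a b => ?_⟩, ⟨⟨0, fun v => map_zero v⟩⟩⟩
    have key : ∀ a : {u : U // ∀ v : U →+ F, v u = 0}, a.1 = 0 := by
      intro a
      by_contra h
      obtain ⟨w, hw⟩ := exists_dual_ne a.1 h
      exact hw (a.2 w)
    apply Subtype.ext
    rw [key a, key b]
  rw [h1, h2] at A
  linarith

section
variable {U X Y : Type} [AddCommGroup U] [AddCommGroup X] [AddCommGroup Y]
  {B : U → X → Y → F}

/-- the form with one extra hyperbolic pair -/
def ext1 (B : U → X → Y → F) (ζ : U →+ F) : U → F × X → F × Y → F :=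
  fun u x y => B u x.2 y.2 + ζ u * (x.1 * y.1)

theorem Tri.ext1 (h : Tri B) (ζ : U →+ F) : Tri (ext1 B ζ) where
  addU u u' x y := by
    simp only [MP_cfac74_al.ext1, h.addU, map_add]; ring
  addX u x x' y := by
    simp only [MP_cfac74_al.ext1, Prod.snd_add, Prod.fst_add, h.addX]; ring
  addY u x y y' := by
    simp only [MP_cfac74_al.ext1, Prod.snd_add, Prod.fst_add, h.addY]; ring

theorem card_F : Nat.card F = 3 := by
  rw [Nat.card_eq_fintype_card, ZMod.card]

open Classical in
theorem lk_ext1 (h : Tri B) (ζ : U →+ F) (u : U) :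
    lk (ext1 B ζ) u = lk B u * (if ζ u = 0 then 3 else 1) := by
  have E : {x : F × X // ∀ y, ext1 B ζ u x y = 0} ≃
      {x : X // ∀ y, B u x y = 0} × {p : F // ζ u * p = 0} :=
    { toFun := fun x => (⟨x.1.2, fun y => by
          have := x.2 (0, y)
          simp only [ext1, mul_zero, add_zero] at this
          exact this⟩, ⟨x.1.1, by
          have := x.2 (1, 0)
          simp only [ext1, h.zeroY, zero_add, mul_one] at this
          exact this⟩)
      invFun := fun s => ⟨(s.2.1, s.1.1), fun y => by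
          change B u s.1.1 y.2 + ζ u * (s.2.1 * y.1) = 0
          rw [s.1.2, ← mul_assoc, s.2.2, zero_mul, add_zero]⟩
      left_inv := fun _ => rfl
      right_inv := fun _ => rfl }
  unfold lk
  rw [Nat.card_congr E, Nat.card_prod]
  congr 1
  split_ifs with hz
  · refine Eq.trans (Nat.card_congr (Equiv.subtypeUnivEquiv ?_)) card_F
    intro p; rw [hz, zero_mul]
  · rw [Nat.card_eq_one_iff_unique]
    refine ⟨⟨fun a b => ?_⟩, ⟨⟨0, mul_zero _⟩⟩⟩
    apply Subtype.ext
    have ha := (mul_eq_zero.1 a.2).resolve_left hz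
    have hb := (mul_eq_zero.1 b.2).resolve_left hz
    rw [ha, hb]

theorem lk_eq_rk (h : Tri B) [Finite X] [Finite Y] (hc : Nat.card X = Nat.card Y) (u : U) :
    rk B u = lk B u := by
  have := lk_rk h u
  rw [hc] at this
  exact Nat.eq_of_mul_eq_mul_left Nat.card_pos this

open Classical in
/-- The class number formula. -/
theorem class_formula {A : Type} [AddCommGroup A] [Finite A] (τ : Twist A)
    [Module F U] [Finite U] [Fintype U] [Finite X] [Finite Y]
    (h : Tri B) (hc : Nat.card X = Nat.card Y) (ζ : U →+ F) :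
    ∃ (G : Type) (_ : Group G) (_ : Finite G),
      Nat.card G = Nat.card A * (3 * Nat.card X * (3 * Nat.card Y * Nat.card U)) ∧
      (2 ≤ Nat.card A → ∃ a b : G, a * b ≠ b * a) ∧
      Nat.card (ConjClasses G) = Nat.card A * ∑ u : U, (lk B u) ^ 2 +
        8 * ∑ u ∈ Finset.univ.filter (fun u : U => ζ u = 0), (lk B u) ^ 2 := by
  have h' := h.ext1 ζ
  let β : F × X → F × Y → (U →+ F) := fun x y =>
    AddMonoidHom.mk' (fun u => ext1 B ζ u x y) (fun u u' => h'.addU u u' x y)
  have hβ : ∀ x y u, β x y u = ext1 B ζ u x y := fun _ _ _ => rfl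
  have hx : ∀ x x' y, β (x + x') y = β x y + β x' y := by
    intro x x' y
    apply AddMonoidHom.ext; intro u
    rw [AddMonoidHom.add_apply, hβ, hβ, hβ, h'.addX]
  have hy : ∀ x y y', β x (y + y') = β x y + β x y' := by
    intro x y y'
    apply AddMonoidHom.ext; intro u
    rw [AddMonoidHom.add_apply, hβ, hβ, hβ, h'.addY]
  let π : F × X →+ F := AddMonoidHom.fst F X
  let _ := tgGroup τ π β hx hy
  have hX : Nat.card (F × X) = 3 * Nat.card X := by rw [Nat.card_prod, card_F]
  have hY : Nat.card (F × Y) = 3 * Nat.card Y := by rw [Nat.card_prod, card_F]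
  have hcard : Nat.card (TG A (F × X) (F × Y) (U →+ F)) =
      Nat.card A * (3 * Nat.card X * (3 * Nat.card Y * Nat.card U)) := by
    rw [card_TG, hX, hY, card_dual]
  refine ⟨TG A (F × X) (F × Y) (U →+ F), inferInstance, inferInstance, hcard, ?_, ?_⟩
  · intro hA
    have : Nontrivial A := (Finite.one_lt_card_iff_nontrivial (α := A)).1 hA
    obtain ⟨a, ha⟩ := exists_ne (0 : A)
    refine ⟨⟨a, 0, 0, 0⟩, ⟨0, (1, 0), 0, 0⟩, fun e => ?_⟩
    have e1 : a + τ.s (π 0) 0 = 0 + τ.s (π (1, 0)) a := congrArg TG.a e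
    rw [map_zero, τ.zero, add_zero, zero_add] at e1
    exact ha (τ.fpf 1 a one_ne_zero e1.symm)
  · -- the count
    have K := card_comm_eq_card_conjClasses_mul_card (TG A (F × X) (F × Y) (U →+ F))
    have C := commCount τ π β hx hy
    have S1 := symCount h'
    have S0 := symCount h
    have c1 : Nat.card {q : ((F × X) × (F × Y)) × ((F × X) × (F × Y)) //
        β q.1.1 q.2.2 = β q.2.1 q.1.2} =
        Nat.card {q : ((F × X) × (F × Y)) × ((F × X) × (F × Y)) //
          ∀ u, ext1 B ζ u q.1.1 q.2.2 = ext1 B ζ u q.2.1 q.1.2} := by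
      apply Nat.card_congr
      refine Equiv.subtypeEquivRight fun q => ?_
      rw [DFunLike.ext_iff]
      exact Iff.rfl
    have c0 : Nat.card {q : ((F × X) × (F × Y)) × ((F × X) × (F × Y)) //
        β q.1.1 q.2.2 = β q.2.1 q.1.2 ∧ (π q.1.1 = 0 ∧ π q.2.1 = 0)} =
        9 * Nat.card {q : (X × Y) × (X × Y) // ∀ u, B u q.1.1 q.2.2 = B u q.2.1 q.1.2} := by
      have E : {q : ((F × X) × (F × Y)) × ((F × X) × (F × Y)) //
          β q.1.1 q.2.2 = β q.2.1 q.1.2 ∧ (π q.1.1 = 0 ∧ π q.2.1 = 0)} ≃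
          (F × F) × {q : (X × Y) × (X × Y) // ∀ u, B u q.1.1 q.2.2 = B u q.2.1 q.1.2} :=
        { toFun := fun q => ((q.1.1.2.1, q.1.2.2.1),
            ⟨((q.1.1.1.2, q.1.1.2.2), (q.1.2.1.2, q.1.2.2.2)), fun u => by
              obtain ⟨⟨⟨⟨p, x⟩, ⟨r, y⟩⟩, ⟨⟨p', x'⟩, ⟨r', y'⟩⟩⟩, hq, h1, h2⟩ := q
              change p = 0 at h1
              change p' = 0 at h2
              have := DFunLike.congr_fun hq u
              rw [hβ, hβ] at this
              simp only [ext1, h1, h2, zero_mul, mul_zero, add_zero] at this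
              exact this⟩)
          invFun := fun s => ⟨(((0, s.2.1.1.1), (s.1.1, s.2.1.1.2)),
            ((0, s.2.1.2.1), (s.1.2, s.2.1.2.2))), by
              refine ⟨AddMonoidHom.ext fun u => ?_, rfl, rfl⟩
              rw [hβ, hβ]
              simp only [ext1, zero_mul, mul_zero, add_zero]
              exact s.2.2 u⟩
          left_inv := fun q => by
            obtain ⟨⟨⟨⟨p, x⟩, ⟨r, y⟩⟩, ⟨⟨p', x'⟩, ⟨r', y'⟩⟩⟩, hq, h1, h2⟩ := q
            change p = 0 at h1
            change p' = 0 at h2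
            subst h1; subst h2
            rfl
          right_inv := fun _ => rfl }
      rw [Nat.card_congr E, Nat.card_prod, Nat.card_prod, card_F]
    have hR1 : ∑ u : U, lk (ext1 B ζ) u * rk (ext1 B ζ) u =
        ∑ u : U, (lk B u) ^ 2 +
        8 * ∑ u ∈ Finset.univ.filter (fun u : U => ζ u = 0), (lk B u) ^ 2 := by
      rw [Finset.sum_filter, Finset.mul_sum, ← Finset.sum_add_distrib]
      refine Finset.sum_congr rfl fun u _ => ?_
      rw [lk_eq_rk h' (by rw [hX, hY, hc]), lk_ext1 h ζ u]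
      split_ifs <;> ring
    have hR0 : ∑ u : U, lk B u * rk B u = ∑ u : U, (lk B u) ^ 2 := by
      refine Finset.sum_congr rfl fun u _ => ?_
      rw [lk_eq_rk h hc]; ring
    rw [hR1, hX, hY] at S1
    rw [hR0] at S0
    rw [C, c1, c0, hcard, card_dual] at K
    have hU : 0 < Nat.card U := Nat.card_pos
    have hXp : 0 < Nat.card X := Nat.card_pos
    have hYp : 0 < Nat.card Y := Nat.card_pos
    have hAp : 0 < Nat.card A := Nat.card_pos
    obtain ⟨n, hn⟩ : ∃ n, Nat.card A = n + 1 := ⟨Nat.card A - 1, by omega⟩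
    rw [hn] at K ⊢
    rw [Nat.add_sub_cancel] at K
    generalize Nat.card {q : ((F × X) × (F × Y)) × ((F × X) × (F × Y)) //
          ∀ u, ext1 B ζ u q.1.1 q.2.2 = ext1 B ζ u q.2.1 q.1.2} = k1 at *
    generalize Nat.card {q : (X × Y) × (X × Y) // ∀ u, B u q.1.1 q.2.2 = B u q.2.1 q.1.2} = k0 at *
    generalize Nat.card (ConjClasses (TG A (F × X) (F × Y) (U →+ F))) = kk at *
    generalize ∑ u : U, (lk B u) ^ 2 = R at *
    generalize ∑ u ∈ Finset.univ.filter (fun u : U => ζ u = 0), (lk B u) ^ 2 = R' at *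
    generalize Nat.card U = cU at *
    generalize Nat.card X = cX at *
    generalize Nat.card Y = cY at *
    have hpos : 0 < (n + 1) * (3 * cX * (3 * cY * cU)) := by positivity
    apply Nat.eq_of_mul_eq_mul_right hpos
    rw [← K]
    have : cU * cU * ((n + 1) * k1 + (n + 1) * n * (9 * k0)) =
      cU * (n + 1) * (cU * k1) + 9 * (n + 1) * n * cU * (cU * k0) := by ring
    rw [this, S1, S0]
    ring

end

end Pool.Agent.Lib.MP_cfac74_al
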