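import Mathlib

/-! Counting lemmas for bilinear and trilinear forms over `ZMod 3`. -/

namespace Pool.Agent.Lib.MP_cfac74_al

open Finset

/-- the field with three elements -/
abbrev F := ZMod 3

/-- A nonzero additive map to `F` vanishes on a third of its source. -/
theorem kerCount {M : Type} [AddCommGroup M] [Finite M] (f : M →+ F) (hf : f ≠ 0) :
    3 * Nat.card {m : M // f m = 0} = Nat.card M := by
  have h1 : Nat.card {m : M // f m = 0} = Nat.card f.ker := rfl
  have h2 : f.ker.index = 3 := by
    have hr : f.ker.index = Nat.card f.range := AddSubgroup.index_ker f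
    have h3 : Nat.card f.range ∣ 3 := by
      have := AddSubgroup.card_addSubgroup_dvd_card f.range
      simpa using this
    have h4 : Nat.card f.range ≠ 1 := by
      intro h
      apply hf
      have := (AddSubgroup.card_eq_one (H := f.range)).1 h
      exact (AddMonoidHom.range_eq_bot_iff).1 this
    rw [hr]
    rcases (Nat.dvd_prime Nat.prime_three).1 h3 with h | h
    · exact absurd h h4
    · exact h
  rw [h1]
  have := AddSubgroup.card_mul_index f.ker
  rw [h2] at this
  rw [mul_comm]; exact this

open Classical in
theorem famCount {P M : Type} [Finite P] [AddCommGroup M] [Finite M] (f : P → M →+ F) :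
    3 * Nat.card {q : P × M // f q.1 q.2 = 0} =
      Nat.card P * Nat.card M + 2 * Nat.card M * Nat.card {p : P // f p = 0} := by
  have : Fintype P := Fintype.ofFinite P
  have : Fintype M := Fintype.ofFinite M
  have e : {q : P × M // f q.1 q.2 = 0} ≃ Σ p : P, {m : M // f p m = 0} :=
    { toFun := fun q => ⟨q.1.1, q.1.2, q.2⟩
      invFun := fun s => ⟨(s.1, s.2.1), s.2.2⟩
      left_inv := fun _ => rfl
      right_inv := fun _ => rfl }
  rw [Nat.card_congr e, Nat.card_sigma, Finset.mul_sum]
  have h1 : ∀ p : P, 3 * Nat.card {m : M // f p m = 0} =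
      Nat.card M + (if f p = 0 then 2 * Nat.card M else 0) := by
    intro p
    split_ifs with h
    · have : Nat.card {m : M // f p m = 0} = Nat.card M := by
        apply Nat.card_congr
        exact { toFun := fun m => m.1, invFun := fun m => ⟨m, by rw [h]; rfl⟩,
                left_inv := fun _ => rfl, right_inv := fun _ => rfl }
      rw [this]; ring
    · rw [kerCount (f p) h]; ring
  rw [Finset.sum_congr rfl (fun p _ => h1 p), Finset.sum_add_distrib, Finset.sum_const,
    ← Finset.sum_filter, Finset.sum_const]
  have h2 : (Finset.univ.filter (fun p : P => f p = 0)).card = Nat.card {p : P // f p = 0} := by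
    rw [Nat.card_eq_fintype_card, Fintype.card_subtype]
  rw [h2, Finset.card_univ, ← Nat.card_eq_fintype_card]
  simp only [smul_eq_mul]
  ring

/-- Duality count for a family of pairings. -/
theorem dualCount {Z U V : Type} [Finite Z] [AddCommGroup U] [Finite U]
    [AddCommGroup V] [Finite V] (T : Z → U → V → F)
    (hU : ∀ z u u' v, T z (u + u') v = T z u v + T z u' v)
    (hV : ∀ z u v v', T z u (v + v') = T z u v + T z u v') :
    Nat.card U * Nat.card {q : Z × V // ∀ u, T q.1 u q.2 = 0} =
      Nat.card V * Nat.card {q : Z × U // ∀ v, T q.1 q.2 v = 0} := by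
  have A := famCount (P := Z × V) (M := U)
    (fun q => AddMonoidHom.mk' (fun u => T q.1 u q.2) (fun u u' => hU _ _ _ _))
  have B := famCount (P := Z × U) (M := V)
    (fun q => AddMonoidHom.mk' (fun v => T q.1 q.2 v) (fun v v' => hV _ _ _ _))
  have e1 : Nat.card {q : (Z × V) × U //
      (AddMonoidHom.mk' (fun u => T q.1.1 u q.1.2) (fun u u' => hU _ _ _ _)) q.2 = 0} =
      Nat.card {q : (Z × U) × V //
      (AddMonoidHom.mk' (fun v => T q.1.1 q.1.2 v) (fun v v' => hV _ _ _ _)) q.2 = 0} := by
    apply Nat.card_congr
    exact { toFun := fun q => ⟨((q.1.1.1, q.1.2), q.1.1.2), q.2⟩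
            invFun := fun q => ⟨((q.1.1.1, q.1.2), q.1.1.2), q.2⟩
            left_inv := fun _ => rfl
            right_inv := fun _ => rfl }
  have e2 : Nat.card {q : Z × V //
      (AddMonoidHom.mk' (fun u => T q.1 u q.2) (fun u u' => hU _ _ _ _)) = 0} =
      Nat.card {q : Z × V // ∀ u, T q.1 u q.2 = 0} := by
    apply Nat.card_congr
    refine Equiv.subtypeEquivRight fun q => ?_
    rw [DFunLike.ext_iff]; rfl
  have e3 : Nat.card {q : Z × U //
      (AddMonoidHom.mk' (fun v => T q.1 q.2 v) (fun v v' => hV _ _ _ _)) = 0} =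
      Nat.card {q : Z × U // ∀ v, T q.1 q.2 v = 0} := by
    apply Nat.card_congr
    refine Equiv.subtypeEquivRight fun q => ?_
    rw [DFunLike.ext_iff]; rfl
  rw [e2] at A
  rw [e3] at B
  rw [e1] at A
  have C := A.symm.trans B
  rw [Nat.card_prod, Nat.card_prod] at C
  have : Nat.card Z * Nat.card V * Nat.card U = Nat.card Z * Nat.card U * Nat.card V := by ring
  rw [this] at C
  have D := Nat.add_left_cancel C
  have h2 : (0:ℕ) < 2 := by norm_num
  apply Nat.eq_of_mul_eq_mul_left h2
  linarith [D]

/-- Duality count for a single pairing. -/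
theorem pairCount {U V : Type} [AddCommGroup U] [Finite U]
    [AddCommGroup V] [Finite V] (T : U → V → F)
    (hU : ∀ u u' v, T (u + u') v = T u v + T u' v)
    (hV : ∀ u v v', T u (v + v') = T u v + T u v') :
    Nat.card U * Nat.card {v : V // ∀ u, T u v = 0} =
      Nat.card V * Nat.card {u : U // ∀ v, T u v = 0} := by
  have A := dualCount (Z := Unit) (fun _ u v => T u v) (fun _ => hU) (fun _ => hV)
  have e1 : Nat.card {q : Unit × V // ∀ u, T u q.2 = 0} = Nat.card {v : V // ∀ u, T u v = 0} := by
    apply Nat.card_congr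
    exact { toFun := fun q => ⟨q.1.2, q.2⟩
            invFun := fun q => ⟨((), q.1), q.2⟩
            left_inv := fun _ => rfl
            right_inv := fun _ => rfl }
  have e2 : Nat.card {q : Unit × U // ∀ v, T q.2 v = 0} = Nat.card {u : U // ∀ v, T u v = 0} := by
    apply Nat.card_congr
    exact { toFun := fun q => ⟨q.1.2, q.2⟩
            invFun := fun q => ⟨((), q.1), q.2⟩
            left_inv := fun _ => rfl
            right_inv := fun _ => rfl }
  rw [e1, e2] at A
  exact A

end Pool.Agent.Lib.MP_cfac74_al
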