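import Pool.Agent.Lib.MP_cfac74_al.Main

/-! The interface to the arithmetic. -/

namespace Pool.Agent.Lib.MP_cfac74_al

open Finset

section
variable {S : Type} [AddCommGroup S] [Module F S] [Finite S]

omit [Module F S] in
theorem R0f_zero (T : Tree S) (K : ℕ) (hS : Nat.card S = 3 ^ K) :
    R0f T 0 = 3 ^ (2 * 3 ^ (K + 2) - 1) := by
  have h := twoSided_zero T.step.step T.step.step
  have hc : Nat.card ((S × F) × F) = 3 ^ (K + 2) := by
    rw [Nat.card_prod, Nat.card_prod, hS, card_F]; ring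
  rw [hc] at h
  have h1 : 0 < 2 * 3 ^ (K + 2) := by positivity
  obtain ⟨r, hr⟩ : ∃ r, 2 * 3 ^ (K + 2) = r + 1 := ⟨2 * 3 ^ (K + 2) - 1, by omega⟩
  have h2 : 3 ^ (K + 2) + 3 ^ (K + 2) = r + 1 := by omega
  rw [h2, pow_succ, mul_comm (3 ^ r) 3] at h
  rw [hr, Nat.add_sub_cancel]
  exact Nat.eq_of_mul_eq_mul_left (by norm_num) h

omit [Module F S] in
theorem R0f_tog (T : Tree S) (K : ℕ) (hS : Nat.card S = 3 ^ K) (s : Pd S)
    (h1 : s.1.2 = 1) (h2 : s.2.2 = 1) :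
    R0f T s = 3 ^ (2 * 3 ^ (K + 1) - 1) := by
  obtain ⟨⟨v, t⟩, ⟨v', t'⟩⟩ := s
  change t = 1 at h1
  change t' = 1 at h2
  subst h1; subst h2
  have h := twoSided_toggle T.step T.step v 1 one_ne_zero v' 1 one_ne_zero
  have hc : Nat.card (S × F) = 3 ^ (K + 1) := by
    rw [Nat.card_prod, hS, card_F]; ring
  rw [hc] at h
  have h1 : 0 < 2 * 3 ^ (K + 1) := by positivity
  obtain ⟨r, hr⟩ : ∃ r, 2 * 3 ^ (K + 1) = r + 1 := ⟨2 * 3 ^ (K + 1) - 1, by omega⟩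
  have h2 : 3 ^ (K + 1) + 3 ^ (K + 1) = r + 1 := by omega
  rw [h2, pow_succ, mul_comm (3 ^ r) 3] at h
  rw [hr, Nat.add_sub_cancel]
  exact Nat.eq_of_mul_eq_mul_left (by norm_num) h

theorem R0f_le (T : Tree S) (s : Pd S) : R0f T s ≤ R0f T 0 := by
  have h := (Tf_Rz T (fun _ _ => 0)).le (0, s)
  have h0 : Tf T (fun _ _ => 0) 0 = R0f T 0 := Tf_zero T _ 0
  rw [Tf_zero, h0] at h
  exact h

omit [Module F S] [Finite S] in
theorem wt_le (wt : S × S → ℕ) (hwt : Rz (S × S) (fun s => 3 ^ wt s)) (s : S × S) :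
    wt s ≤ wt 0 := by
  have h := hwt.le s
  exact (Nat.pow_le_pow_iff_right (by norm_num)).1 h

omit [AddCommGroup S] [Module F S] [Finite S] in
theorem card_Pd (K : ℕ) (hS : Nat.card S = 3 ^ K) : Nat.card (Pd S) = 9 ^ (K + 2) := by
  have : Nat.card (Pd S) = (Nat.card S * 3 * 3) * (Nat.card S * 3 * 3) := by
    rw [Nat.card_prod, Nat.card_prod, Nat.card_prod, card_F]
  rw [this, hS, ← nine_pow]; ring

theorem A0_le [Fintype (Pd S)] (T : Tree S) (wt : S × S → ℕ)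
    (hwt : Rz (S × S) (fun s => 3 ^ wt s)) (e K M : ℕ) (hM : wt 0 + 1 = M)
    (hS : Nat.card S = 3 ^ K) :
    A0 T wt e + 2 * D0 wt ≤ 9 ^ (M + e + 3 * (2 * 3 ^ (K + 2) - 1) + K + 3) := by
  have hρ := R0f_zero T K hS
  generalize 2 * 3 ^ (K + 2) - 1 = r at *
  have hW : ∀ s : Pd S, 9 ^ Wf wt s ≤ 9 ^ wt 0 := fun s =>
    Nat.pow_le_pow_right (by norm_num) (wt_le wt hwt _)
  have hR2 : ∀ s : Pd S, R0f T s ^ 2 ≤ 9 ^ r := fun s => by
    rw [← nine_pow, ← hρ]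
    exact Nat.pow_le_pow_left (R0f_le T s) 2
  have hR4 : ∀ s : Pd S, R0f T s ^ 4 ≤ 9 ^ r * 9 ^ r := fun s => by
    have : R0f T s ^ 4 = R0f T s ^ 2 * R0f T s ^ 2 := by ring
    rw [this]
    exact Nat.mul_le_mul (hR2 s) (hR2 s)
  have h1 : ∀ s ∈ (Finset.univ : Finset (Pd S)), (9 ^ Wf wt s * 9 * 9 ^ e * R0f T 0 ^ 2 *
      R0f T s ^ 4 + 2 * (9 ^ Wf wt s * 9 ^ e * R0f T 0 ^ 2 * R0f T s ^ 2)) ≤
      11 * (9 ^ wt 0 * 9 ^ e * 9 ^ r * (9 ^ r * 9 ^ r)) := by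
    intro s _
    rw [hρ, nine_pow]
    have a1 : 9 ^ Wf wt s * 9 * 9 ^ e * 9 ^ r * R0f T s ^ 4 ≤
        9 ^ wt 0 * 9 * 9 ^ e * 9 ^ r * (9 ^ r * 9 ^ r) :=
      Nat.mul_le_mul (Nat.mul_le_mul_right _ (Nat.mul_le_mul_right _
        (Nat.mul_le_mul_right _ (hW s)))) (hR4 s)
    have a2 : 9 ^ Wf wt s * 9 ^ e * 9 ^ r * R0f T s ^ 2 ≤
        9 ^ wt 0 * 9 ^ e * 9 ^ r * (9 ^ r * 9 ^ r) :=
      Nat.mul_le_mul (Nat.mul_le_mul_right _ (Nat.mul_le_mul_right _ (hW s)))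
        (calc R0f T s ^ 2 ≤ 9 ^ r * 1 := by rw [mul_one]; exact hR2 s
          _ ≤ 9 ^ r * 9 ^ r := Nat.mul_le_mul_left _ (Nat.one_le_pow _ _ (by norm_num)))
    calc _ ≤ 9 ^ wt 0 * 9 * 9 ^ e * 9 ^ r * (9 ^ r * 9 ^ r) +
          2 * (9 ^ wt 0 * 9 ^ e * 9 ^ r * (9 ^ r * 9 ^ r)) :=
        Nat.add_le_add a1 (Nat.mul_le_mul_left _ a2)
      _ = _ := by ring
  have h2 := Finset.sum_le_sum h1
  rw [Finset.sum_const, Finset.card_univ, ← Nat.card_eq_fintype_card, card_Pd K hS,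
    smul_eq_mul] at h2
  have h3 : ∀ s ∈ (Finset.univ : Finset (Pd S)), 9 ^ Wf wt s ≤ 9 ^ wt 0 := fun s _ => hW s
  have h4 := Finset.sum_le_sum h3
  rw [Finset.sum_const, Finset.card_univ, ← Nat.card_eq_fintype_card, card_Pd K hS,
    smul_eq_mul] at h4
  have h5 : 9 ^ (M + e + 3 * r + K + 3) =
      9 ^ (K + 2) * (81 * (9 ^ wt 0 * 9 ^ e * 9 ^ r * (9 ^ r * 9 ^ r))) := by
    rw [← hM]; ring
  have h6 : 1 ≤ 9 ^ e * 9 ^ r * (9 ^ r * 9 ^ r) := by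
    have : 0 < 9 ^ e * 9 ^ r * (9 ^ r * 9 ^ r) := by positivity
    exact this
  have h7 : 9 ^ wt 0 * 1 ≤ 9 ^ wt 0 * (9 ^ e * 9 ^ r * (9 ^ r * 9 ^ r)) :=
    Nat.mul_le_mul_left _ h6
  unfold A0 D0
  rw [h5]
  calc _ ≤ 9 ^ (K + 2) * (11 * (9 ^ wt 0 * 9 ^ e * 9 ^ r * (9 ^ r * 9 ^ r))) +
        2 * (11 * (9 ^ (K + 2) * 9 ^ wt 0)) :=
      Nat.add_le_add h2 (Nat.mul_le_mul_left _ (Nat.mul_le_mul_left _ h4))
    _ = 9 ^ (K + 2) * (11 * (9 ^ wt 0 * 9 ^ e * 9 ^ r * (9 ^ r * 9 ^ r)) +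
        22 * (9 ^ wt 0 * 1)) := by ring
    _ ≤ 9 ^ (K + 2) * (11 * (9 ^ wt 0 * 9 ^ e * 9 ^ r * (9 ^ r * 9 ^ r)) +
        22 * (9 ^ wt 0 * (9 ^ e * 9 ^ r * (9 ^ r * 9 ^ r)))) := by
      apply Nat.mul_le_mul_left
      apply Nat.add_le_add_left
      exact Nat.mul_le_mul_left _ h7
    _ ≤ _ := by
      apply Nat.mul_le_mul_left
      have : 9 ^ wt 0 * (9 ^ e * 9 ^ r * (9 ^ r * 9 ^ r)) =
        9 ^ wt 0 * 9 ^ e * 9 ^ r * (9 ^ r * 9 ^ r) := by ring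
      rw [this]
      omega

omit [Module F S] in
theorem le_A0 [Fintype (Pd S)] (T : Tree S) (wt : S × S → ℕ)
    (e K M : ℕ) (hM : wt 0 + 1 = M)
    (hS : Nat.card S = 3 ^ K) :
    9 ^ (M + e + 3 * (2 * 3 ^ (K + 2) - 1)) ≤ A0 T wt e := by
  have hρ := R0f_zero T K hS
  generalize 2 * 3 ^ (K + 2) - 1 = r at *
  have h1 : ∀ s ∈ (Finset.univ : Finset (Pd S)), 0 ≤ (9 ^ Wf wt s * 9 * 9 ^ e * R0f T 0 ^ 2 *
      R0f T s ^ 4 + 2 * (9 ^ Wf wt s * 9 ^ e * R0f T 0 ^ 2 * R0f T s ^ 2)) :=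
    fun s _ => Nat.zero_le _
  have h2 := Finset.single_le_sum h1 (Finset.mem_univ (0 : Pd S))
  refine le_trans ?_ h2
  refine le_trans ?_ (Nat.le_add_right _ _)
  have h3 : Wf wt (0 : Pd S) = wt 0 := rfl
  have h4 : R0f T 0 ^ 4 = 9 ^ r * 9 ^ r := by
    rw [hρ, ← nine_pow]; ring
  rw [h3, h4, hρ, nine_pow, ← hM]
  apply le_of_eq
  ring

end

open Classical in
theorem interface (K M e : ℕ) (hM1 : 1 ≤ M) (hM2 : M ≤ 2 ^ (2 * K)) :
    ∃ a0 d0 : ℕ,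
      9 ^ (M + e + 3 * (2 * 3 ^ (K + 2) - 1)) ≤ a0 ∧
      a0 + 2 * d0 ≤ 9 ^ (M + e + 3 * (2 * 3 ^ (K + 2) - 1) + K + 3) ∧
      (∀ a : ℕ, (((a + 8) * a0 + 2 * a * d0 : ℕ) : ZMod 16) =
        a * (9 ^ (M + e + 3 * (2 * 3 ^ (K + 2) - 1)) + 9 ^ (K + 3) - 1) + 8) ∧
      ∀ (A : Type) [AddCommGroup A] [Finite A], Twist A → 2 ≤ Nat.card A → Odd (Nat.card A) →
        ∀ i < 9 ^ M, ∀ j < 9 ^ M,
        ∃ (G : Type) (_ : Group G) (_ : Finite G), Odd (Nat.card G) ∧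
          (∃ a b : G, a * b ≠ b * a) ∧
          Nat.card (ConjClasses G) = (Nat.card A + 8) * (a0 + 16 * (9 ^ e *
            9 ^ (2 * 3 ^ (K + 2) - 1) * 9 ^ (2 * 3 ^ (K + 1) - 1)) * i) +
            2 * Nat.card A * (d0 + 88 * j) := by
  obtain ⟨S, _, _, _, ⟨T⟩, hS, hW⟩ := exists_space K
  obtain ⟨wt, hwt, hwt0, hwtj⟩ := hW M hM1 hM2
  have : Fintype (Pd S) := Fintype.ofFinite _
  refine ⟨A0 T wt e, D0 wt, le_A0 T wt e K M hwt0 hS, A0_le T wt hwt e K M hwt0 hS, ?_, ?_⟩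
  · intro a
    have hL := Lf_Rz T wt hwt e (tog (∅ : Finset (Pd S))) (tog (∅ : Finset (Pd S)))
    have h1 := sums _ hL a
    rw [sumA T wt e ∅ _ 0 (fun s hs => absurd hs (Finset.notMem_empty s)),
      sumD T wt e ∅ _, Finset.sum_empty, mul_zero, mul_zero, add_zero,
      add_zero] at h1
    rw [← h1, Nat.cast_add, Nat.cast_mul, sum_sq_mod hL]
    rw [sum_sq_odd hL]
    · have h2 : Nat.card (F × (F × Pd S)) = 9 ^ (K + 3) := by
        have : Nat.card (F × (F × Pd S)) = 3 * (3 * Nat.card (Pd S)) := by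
          rw [Nat.card_prod, Nat.card_prod, card_F]
        rw [this, card_Pd K hS]; ring
      have h3 : (Lf T wt e (tog (∅ : Finset (Pd S))) (tog (∅ : Finset (Pd S))) 0) ^ 2 =
          9 ^ (M + e + 3 * (2 * 3 ^ (K + 2) - 1)) := by
        have h4 : Lf T wt e (tog (∅ : Finset (Pd S))) (tog (∅ : Finset (Pd S))) 0 =
            3 ^ wt 0 * 3 * 3 ^ e * (R0f T 0 * R0f T 0) * R0f T 0 :=
          Lf_00 T wt e _ _ 0
        rw [h4, R0f_zero T K hS, ← hwt0, ← nine_pow]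
        ring
      have h5 := congrArg (Nat.cast : ℕ → ZMod 16) h3
      push_cast at h5
      rw [h5, h2]
      push_cast
      rfl
    · have h2 : (Finset.univ.filter (fun u : F × (F × Pd S) => u.1 = 0)).card =
          Nat.card (F × Pd S) := by
        rw [← Fintype.card_subtype, ← Nat.card_eq_fintype_card]
        apply Nat.card_congr
        exact { toFun := fun u => u.1.2
                invFun := fun w => ⟨(0, w), rfl⟩
                left_inv := fun u => by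
                  obtain ⟨⟨z, w⟩, hz⟩ := u
                  change z = 0 at hz
                  subst hz; rfl
                right_inv := fun _ => rfl }
      rw [h2]
      have h6 : Nat.card (F × Pd S) = 3 * 9 ^ (K + 2) := by
        rw [Nat.card_prod, card_Pd K hS, card_F]
      rw [h6]
      exact Odd.mul (by decide) (Odd.pow (by decide))
  · intro A _ _ τ hA hA' i hi j hj
    let Om : Finset (Pd S) := Finset.univ.filter (fun s => s.1.2 = 1 ∧ s.2.2 = 1)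
    have hOm : ∀ k < M, 8 ≤ (Om.filter (fun s => Wf wt s = k)).card := by
      intro k hk
      obtain ⟨p, hp⟩ := hwtj k hk
      let emb : F × F → Pd S := fun d => (((p.1, d.1), 1), ((p.2, d.2), 1))
      have hinj : Function.Injective emb := by
        intro d d' h
        have h1 := congrArg (fun s : Pd S => s.1.1.2) h
        have h2 := congrArg (fun s : Pd S => s.2.1.2) h
        exact Prod.ext h1 h2
      have hsub : Finset.univ.image emb ⊆ Om.filter (fun s => Wf wt s = k) := by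
        intro s hs
        obtain ⟨d, _, rfl⟩ := Finset.mem_image.1 hs
        rw [Finset.mem_filter, Finset.mem_filter]
        exact ⟨⟨Finset.mem_univ _, rfl, rfl⟩, hp⟩
      have hc := Finset.card_le_card hsub
      rw [Finset.card_image_of_injective _ hinj] at hc
      refine le_trans ?_ hc
      decide
    obtain ⟨Ea, hEa, hsa⟩ := toggle_sum (Wf wt) Om M hOm i hi
    obtain ⟨Eb, hEb, hsb⟩ := toggle_sum (Wf wt) Om M hOm j hj
    have hL := Lf_Rz T wt hwt e (tog Ea) (tog Eb)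
    obtain ⟨G, _, _, h1, h2, h3⟩ := group_of_Rz _ hL A τ hA hA'
    refine ⟨G, inferInstance, inferInstance, h1, h2, ?_⟩
    rw [h3, sumD T wt e Eb, sumA T wt e Ea _ (3 ^ (2 * 3 ^ (K + 1) - 1)) (fun s hs => ?_),
      hsa, hsb, R0f_zero T K hS, nine_pow, nine_pow]
    · have := (Finset.mem_filter.1 (hEa hs)).2
      exact R0f_tog T K hS s this.1 this.2

end Pool.Agent.Lib.MP_cfac74_al
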