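import Mathlib

/-! The arithmetic. -/

namespace Pool.Agent.Lib.MP_cfac74_al

theorem exists_index (f : ℕ → ℕ) (hf : ∀ k, k ≤ f k) (t k0 : ℕ) (h0 : f k0 ≤ t) :
    ∃ k, k0 ≤ k ∧ f k ≤ t ∧ t < f (k + 1) := by
  have h1 : k0 ≤ t := le_trans (hf k0) h0
  refine ⟨Nat.findGreatest (fun k => f k ≤ t) t, Nat.le_findGreatest h1 h0,
    Nat.findGreatest_spec (P := fun k => f k ≤ t) h1 h0, ?_⟩
  by_contra h
  push Not at h
  by_cases h2 : Nat.findGreatest (fun k => f k ≤ t) t + 1 ≤ t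
  · exact Nat.findGreatest_is_greatest (P := fun k => f k ≤ t) (Nat.lt_succ_self _) h2 h
  · have := hf (Nat.findGreatest (fun k => f k ≤ t) t + 1)
    omega

/-- Two-term representation. -/
theorem two_term (u N τ : ℕ) (hN : 0 < N) (hcop : Nat.Coprime u N) (h : u * N ≤ τ) :
    ∃ i j, i < N ∧ τ = u * i + N * j := by
  have : NeZero N := ⟨by omega⟩
  let v := ZMod.unitOfCoprime u hcop
  let i : ℕ := ((↑(v⁻¹) : ZMod N) * (τ : ZMod N)).val
  have hi : i < N := ZMod.val_lt _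
  have h1 : u * i ≡ τ [MOD N] := by
    rw [← ZMod.natCast_eq_natCast_iff]
    push_cast
    have h2 : (i : ZMod N) = (↑(v⁻¹) : ZMod N) * (τ : ZMod N) := ZMod.natCast_zmod_val _
    have h3 : (u : ZMod N) = (v : ZMod N) := (ZMod.coe_unitOfCoprime u hcop).symm
    rw [h2, h3, ← mul_assoc, Units.mul_inv, one_mul]
  have h4 : u * i ≤ τ := le_trans (Nat.mul_le_mul_left _ hi.le) h
  have h5 : N ∣ τ - u * i := (Nat.modEq_iff_dvd' h4).1 h1
  obtain ⟨j, hj⟩ := h5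
  exact ⟨i, j, hi, by omega⟩

theorem cop_aux (c w x : ℕ) (hc : c = 1 ∨ c = 7 ∨ c = 13 ∨ c = 19) :
    Nat.Coprime ((528 * w + c + 8) * 9 ^ x) (11 * (528 * w + c)) := by
  have c1 : Nat.Coprime (528 * w + c + 8) 11 := by
    rw [Nat.coprime_comm, Nat.Prime.coprime_iff_not_dvd (by norm_num)]
    omega
  have c2 : Nat.Coprime (528 * w + c + 8) (528 * w + c) := by
    rw [Nat.coprime_self_add_left]
    have : Nat.Coprime (2 ^ 3) (528 * w + c) := by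
      apply Nat.Coprime.pow_left
      rw [Nat.Prime.coprime_iff_not_dvd Nat.prime_two]
      omega
    simpa using this
  have c3 : Nat.Coprime (9 ^ x) 11 := Nat.Coprime.pow_left _ (by norm_num)
  have c4 : Nat.Coprime (9 ^ x) (528 * w + c) := by
    apply Nat.Coprime.pow_left
    have : Nat.Coprime (3 ^ 2) (528 * w + c) := by
      apply Nat.Coprime.pow_left
      rw [Nat.Prime.coprime_iff_not_dvd Nat.prime_three]
      omega
    simpa using this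
  exact Nat.Coprime.mul_right (Nat.Coprime.mul_left c1 c3) (Nat.Coprime.mul_left c2 c4)

/-- initial index bound -/
theorem init_aux (c q : ℕ) (hc19 : c ≤ 19) :
    c * (528 * 9 ^ q + 1) ^ 2 + 8 ≤ 9 ^ (2 * q + 8) := by
  have hx : 1 ≤ 9 ^ q := Nat.one_le_pow _ _ (by norm_num)
  have hp : (9 : ℕ) ^ (2 * q + 8) = (9 ^ q) ^ 2 * 43046721 := by
    rw [pow_add, mul_comm 2 q, pow_mul]; norm_num
  rw [hp]
  generalize 9 ^ q = x at *
  have h3 : (528 * x + 1) ^ 2 ≤ (529 * x) ^ 2 := Nat.pow_le_pow_left (by omega) 2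
  have h4 : c * (528 * x + 1) ^ 2 ≤ 19 * (529 * x) ^ 2 := Nat.mul_le_mul hc19 h3
  have h5 : 1 ≤ x ^ 2 := Nat.one_le_pow _ _ hx
  nlinarith

/-- The size estimate for the second digit block. -/
theorem size_aux (c m Q X Y La a0 d0 t j : ℕ) (hc : 1 ≤ c) (hm : 528 ≤ m)
    (hQ : 18 * Q ≤ m)
    (hsum : a0 + 2 * d0 ≤ X * Q)
    (hY : c * m ^ 2 * (X * Y) < X * X) (hLa : 96 * La ≤ Y)
    (ht : t < (c * (m + 528) ^ 2 + 8) * a0 + 2 * (c * (m + 528) ^ 2) * d0 +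
      176 * (c * (m + 528) ^ 2) * (c * (m + 528) ^ 2 + 8) * La)
    (hj : (c * m ^ 2 + 8) * a0 + 2 * (c * m ^ 2) * d0 + 16 * (11 * (c * m ^ 2) * j) ≤ t) :
    j < X := by
  by_contra hjX
  push Not at hjX
  have h1 : 16 * (11 * (c * m ^ 2) * X) ≤ 16 * (11 * (c * m ^ 2) * j) := by gcongr
  have h2 : (m + 528) ^ 2 ≤ m ^ 2 + 1584 * m := by nlinarith
  have h3 : c * (m + 528) ^ 2 ≤ c * m ^ 2 + 1584 * (c * m) := by
    calc c * (m + 528) ^ 2 ≤ c * (m ^ 2 + 1584 * m) := Nat.mul_le_mul_left _ h2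
      _ = _ := by ring
  have h4 : c * (m + 528) ^ 2 ≤ 4 * (c * m ^ 2) := by
    have : (m + 528) ^ 2 ≤ 4 * m ^ 2 := by nlinarith
    calc c * (m + 528) ^ 2 ≤ c * (4 * m ^ 2) := Nat.mul_le_mul_left _ this
      _ = _ := by ring
  have hm2 : 1 ≤ m ^ 2 := Nat.one_le_pow _ _ (by omega)
  have h5 : 1 ≤ c * m ^ 2 := Nat.mul_le_mul hc hm2
  -- first part
  have p1 : 1584 * (c * m) * (X * Q) ≤ 88 * (c * m ^ 2) * X := by
    calc 1584 * (c * m) * (X * Q) = 88 * (c * m) * X * (18 * Q) := by ring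
      _ ≤ 88 * (c * m) * X * m := Nat.mul_le_mul_left _ hQ
      _ = _ := by ring
  -- second part
  have p2 : 96 * (c * m ^ 2) * La ≤ X := by
    have : c * m ^ 2 * Y < X := by
      by_contra hh
      push Not at hh
      have : X * X ≤ c * m ^ 2 * (X * Y) := by
        calc X * X ≤ X * (c * m ^ 2 * Y) := Nat.mul_le_mul_left _ hh
          _ = _ := by ring
      omega
    calc 96 * (c * m ^ 2) * La = c * m ^ 2 * (96 * La) := by ring
      _ ≤ c * m ^ 2 * Y := Nat.mul_le_mul_left _ hLa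
      _ ≤ X := this.le
  have p3 : 176 * (c * (m + 528) ^ 2) * (c * (m + 528) ^ 2 + 8) * La ≤
      88 * (c * m ^ 2) * X := by
    calc 176 * (c * (m + 528) ^ 2) * (c * (m + 528) ^ 2 + 8) * La
        ≤ 176 * (4 * (c * m ^ 2)) * (4 * (c * m ^ 2) + 8 * (c * m ^ 2)) * La := by
          apply Nat.mul_le_mul_right
          apply Nat.mul_le_mul (Nat.mul_le_mul_left _ h4)
          apply Nat.add_le_add h4
          omega
      _ = 88 * (c * m ^ 2) * (96 * (c * m ^ 2) * La) := by ring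
      _ ≤ _ := Nat.mul_le_mul_left _ p2
  have p4 : (c * (m + 528) ^ 2 + 8) * a0 + 2 * (c * (m + 528) ^ 2) * d0 ≤
      (c * m ^ 2 + 8) * a0 + 2 * (c * m ^ 2) * d0 + 1584 * (c * m) * (X * Q) := by
    calc (c * (m + 528) ^ 2 + 8) * a0 + 2 * (c * (m + 528) ^ 2) * d0
        ≤ (c * m ^ 2 + 1584 * (c * m) + 8) * a0 + 2 * (c * m ^ 2 + 1584 * (c * m)) * d0 := by
          gcongr
      _ = (c * m ^ 2 + 8) * a0 + 2 * (c * m ^ 2) * d0 + 1584 * (c * m) * (a0 + 2 * d0) := by ring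
      _ ≤ _ := by gcongr
  have e1 : 16 * (11 * (c * m ^ 2) * X) = 88 * (c * m ^ 2) * X + 88 * (c * m ^ 2) * X := by ring
  omega

theorem solve (K e M r r0 a0 d0 c t : ℕ)
    (hc : c = 1 ∨ c = 7 ∨ c = 13 ∨ c = 19)
    (h1 : 9 ^ (M + e + 3 * r) ≤ a0)
    (h2 : a0 + 2 * d0 ≤ 9 ^ (M + e + 3 * r + K + 3))
    (hmod : ∀ z : ℕ, t % 16 = ((528 * z + c + 8) * a0 + 2 * (528 * z + c) * d0) % 16)
    (ht1 : 9 ^ (M + 3 * (e + 3 * r + K + 3) + 9) ≤ t)
    (ht2 : t < 9 ^ (2 * M))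
    (hM : (e + 3 * r + K + 3) + 11 + e + r + r0 ≤ M)
    (hr : r0 + 3 ≤ 2 * r) :
    ∃ k i j : ℕ, 1 ≤ k ∧ i < 9 ^ M ∧ j < 9 ^ M ∧
      t = (c * (528 * k + 1) ^ 2 + 8) * (a0 + 16 * (9 ^ e * 9 ^ r * 9 ^ r0) * i) +
        2 * (c * (528 * k + 1) ^ 2) * (d0 + 88 * j) := by
  obtain ⟨La, hLa⟩ : ∃ La, La = 9 ^ e * 9 ^ r * 9 ^ r0 := ⟨_, rfl⟩
  obtain ⟨q, hq⟩ : ∃ q, q = e + 3 * r + K + 3 := ⟨_, rfl⟩
  rw [← hLa]
  rw [← hq] at ht1 hM
  have hLap : La = 9 ^ (e + r + r0) := by rw [hLa, ← pow_add, ← pow_add]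
  have hc1 : 1 ≤ c := by omega
  have hc19 : c ≤ 19 := by omega
  have ha0 : 1 ≤ a0 := le_trans (Nat.one_le_pow _ _ (by norm_num)) h1
  have hkA : ∀ k, k ≤ c * (528 * k + 1) ^ 2 := by
    intro k
    have h3 : 528 * k + 1 ≤ (528 * k + 1) ^ 2 := Nat.le_self_pow two_ne_zero _
    have h4 : 1 * (528 * k + 1) ^ 2 ≤ c * (528 * k + 1) ^ 2 := Nat.mul_le_mul_right _ hc1
    omega
  have hkf : ∀ k, k ≤ (c * (528 * k + 1) ^ 2 + 8) * a0 + 2 * (c * (528 * k + 1) ^ 2) * d0 +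
      176 * (c * (528 * k + 1) ^ 2) * (c * (528 * k + 1) ^ 2 + 8) * La := by
    intro k
    have h3 := hkA k
    have h4 : (c * (528 * k + 1) ^ 2 + 8) * 1 ≤ (c * (528 * k + 1) ^ 2 + 8) * a0 :=
      Nat.mul_le_mul_left _ ha0
    omega
  have hAk0 := init_aux c q hc19
  have hf0 : (c * (528 * 9 ^ q + 1) ^ 2 + 8) * a0 + 2 * (c * (528 * 9 ^ q + 1) ^ 2) * d0 +
      176 * (c * (528 * 9 ^ q + 1) ^ 2) * (c * (528 * 9 ^ q + 1) ^ 2 + 8) * La ≤ t := by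
    refine le_trans ?_ ht1
    generalize c * (528 * 9 ^ q + 1) ^ 2 = x at *
    have e1 : (x + 8) * a0 + 2 * x * d0 ≤ 9 ^ (M + 3 * q + 8) := by
      calc (x + 8) * a0 + 2 * x * d0 ≤ (x + 8) * (a0 + 2 * d0) := by
            nlinarith [Nat.zero_le d0]
        _ ≤ 9 ^ (2 * q + 8) * 9 ^ (M + e + 3 * r + K + 3) := Nat.mul_le_mul hAk0 h2
        _ = 9 ^ (M + 3 * q + 8) := by
            rw [← pow_add]; congr 1; omega
    have e2 : 176 * x * (x + 8) * La ≤ 9 ^ (M + 3 * q + 8) := by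
      calc 176 * x * (x + 8) * La
          ≤ 9 ^ 3 * 9 ^ (2 * q + 8) * 9 ^ (2 * q + 8) * 9 ^ (e + r + r0) := by
            rw [hLap]
            apply Nat.mul_le_mul_right
            apply Nat.mul_le_mul _ hAk0
            apply Nat.mul_le_mul (by norm_num)
            exact le_trans (Nat.le_add_right _ 8) hAk0
        _ = 9 ^ (3 + (2 * q + 8) + (2 * q + 8) + (e + r + r0)) := by
            rw [← pow_add, ← pow_add, ← pow_add]
        _ ≤ 9 ^ (M + 3 * q + 8) := Nat.pow_le_pow_right (by norm_num) (by omega)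
    have e3 : 9 ^ (M + 3 * q + 9) = 9 * 9 ^ (M + 3 * q + 8) := by
      rw [show M + 3 * q + 9 = (M + 3 * q + 8) + 1 by ring, pow_succ, mul_comm]
    rw [e3]
    omega
  obtain ⟨k, hk0, hk1, hk2⟩ := exists_index (fun k => (c * (528 * k + 1) ^ 2 + 8) * a0 +
    2 * (c * (528 * k + 1) ^ 2) * d0 +
    176 * (c * (528 * k + 1) ^ 2) * (c * (528 * k + 1) ^ 2 + 8) * La) hkf t (9 ^ q) hf0
  have hk1' : (c * (528 * k + 1) ^ 2 + 8) * a0 + 2 * (c * (528 * k + 1) ^ 2) * d0 +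
    176 * (c * (528 * k + 1) ^ 2) * (c * (528 * k + 1) ^ 2 + 8) * La ≤ t := hk1
  have hk2' : t < (c * (528 * (k + 1) + 1) ^ 2 + 8) * a0 + 2 * (c * (528 * (k + 1) + 1) ^ 2) * d0 +
    176 * (c * (528 * (k + 1) + 1) ^ 2) * (c * (528 * (k + 1) + 1) ^ 2 + 8) * La := hk2
  clear hk1 hk2
  have hm' : 528 * (k + 1) + 1 = (528 * k + 1) + 528 := by ring
  rw [hm'] at hk2'
  have hq1 : 1 ≤ 9 ^ q := Nat.one_le_pow _ _ (by norm_num)
  have hm1 : 528 ≤ 528 * k + 1 := by omega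
  have hm2 : 18 * 9 ^ q ≤ 528 * k + 1 := by omega
  obtain ⟨w, hw⟩ : ∃ w, c * (528 * k + 1) ^ 2 = 528 * w + c := by
    refine ⟨c * (528 * k ^ 2 + 2 * k), ?_⟩
    ring
  have hmodw := hmod w
  rw [← hw] at hmodw
  -- sizes
  have hsize : c * (528 * k + 1) ^ 2 * (9 ^ M * 9 ^ (e + 3 * r)) < 9 ^ M * 9 ^ M := by
    calc c * (528 * k + 1) ^ 2 * (9 ^ M * 9 ^ (e + 3 * r))
        = c * (528 * k + 1) ^ 2 * 9 ^ (M + e + 3 * r) := by
          rw [← pow_add]; congr 2; omega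
      _ ≤ c * (528 * k + 1) ^ 2 * a0 := Nat.mul_le_mul_left _ h1
      _ ≤ (c * (528 * k + 1) ^ 2 + 8) * a0 := Nat.mul_le_mul_right _ (Nat.le_add_right _ _)
      _ ≤ t := by omega
      _ < 9 ^ (2 * M) := ht2
      _ = _ := by rw [two_mul, pow_add]
  have hLaY : 96 * La ≤ 9 ^ (e + 3 * r) := by
    rw [hLap]
    calc 96 * 9 ^ (e + r + r0) ≤ 9 ^ 3 * 9 ^ (e + r + r0) := Nat.mul_le_mul_right _ (by norm_num)
      _ = 9 ^ (3 + (e + r + r0)) := by rw [← pow_add]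
      _ ≤ _ := Nat.pow_le_pow_right (by norm_num) (by omega)
  have hapos : 0 < c * (528 * k + 1) ^ 2 := by positivity
  -- the quotient
  obtain ⟨τ, hτ⟩ : ∃ τ, t = (c * (528 * k + 1) ^ 2 + 8) * a0 +
      2 * (c * (528 * k + 1) ^ 2) * d0 + 16 * τ := by
    generalize c * (528 * k + 1) ^ 2 = x at *
    refine ⟨(t - ((x + 8) * a0 + 2 * x * d0)) / 16, ?_⟩
    have hle : (x + 8) * a0 + 2 * x * d0 ≤ t := le_trans (Nat.le_add_right _ _) hk1'
    omega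
  have hτ1 : (c * (528 * k + 1) ^ 2 + 8) * La * (11 * (c * (528 * k + 1) ^ 2)) ≤ τ := by
    have : 176 * (c * (528 * k + 1) ^ 2) * (c * (528 * k + 1) ^ 2 + 8) * La =
        16 * ((c * (528 * k + 1) ^ 2 + 8) * La * (11 * (c * (528 * k + 1) ^ 2))) := by ring
    rw [this, hτ] at hk1'
    omega
  have hcop : Nat.Coprime ((c * (528 * k + 1) ^ 2 + 8) * La) (11 * (c * (528 * k + 1) ^ 2)) := by
    rw [hLap, hw]
    exact cop_aux c w _ hc
  obtain ⟨i, j, hi, hij⟩ := two_term _ _ τ (by positivity) hcop hτ1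
  have hj : j < 9 ^ M := by
    refine size_aux c (528 * k + 1) (9 ^ q) (9 ^ M) (9 ^ (e + 3 * r)) La a0 d0 t j hc1 hm1 hm2
      ?_ hsize hLaY hk2' ?_
    · refine le_trans h2 (le_of_eq ?_)
      rw [← pow_add]; congr 1; omega
    · rw [hτ, hij]
      have : 16 * ((c * (528 * k + 1) ^ 2 + 8) * La * i + 11 * (c * (528 * k + 1) ^ 2) * j) =
        16 * ((c * (528 * k + 1) ^ 2 + 8) * La * i) + 16 * (11 * (c * (528 * k + 1) ^ 2) * j) := by
        ring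
      omega
  have hi' : i < 9 ^ M := by
    have hY : 81 ≤ 9 ^ (e + 3 * r) := by
      calc 81 = 9 ^ 2 := by norm_num
        _ ≤ _ := Nat.pow_le_pow_right (by norm_num) (by omega)
    have h5 : c * (528 * k + 1) ^ 2 * 81 < 9 ^ M := by
      by_contra hh
      push Not at hh
      have : 9 ^ M * 9 ^ M ≤ c * (528 * k + 1) ^ 2 * (9 ^ M * 9 ^ (e + 3 * r)) := by
        calc 9 ^ M * 9 ^ M ≤ 9 ^ M * (c * (528 * k + 1) ^ 2 * 81) := Nat.mul_le_mul_left _ hh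
          _ = c * (528 * k + 1) ^ 2 * (9 ^ M * 81) := by ring
          _ ≤ _ := Nat.mul_le_mul_left _ (Nat.mul_le_mul_left _ hY)
      omega
    omega
  refine ⟨k, i, j, by omega, hi', hj, ?_⟩
  rw [hτ, hij]
  ring

end Pool.Agent.Lib.MP_cfac74_al
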