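import Pool.Agent.Lib.MP_cfac74_al.Grp

/-! Abelian groups with a fixed point free automorphism of order three. -/

namespace Pool.Agent.Lib.MP_cfac74_al

/-- a twist from an automorphism of order three -/
def Twist.mk' {A : Type} [AddCommGroup A] (σ : A → A) (hadd : ∀ a b, σ (a + b) = σ a + σ b)
    (h3 : ∀ a, σ (σ (σ a)) = a) (hf : ∀ a, σ a = a → a = 0) : Twist A where
  s p a := σ^[p.val] a
  add p := by
    have : ∀ n : ℕ, ∀ a b, σ^[n] (a + b) = σ^[n] a + σ^[n] b := by
      intro n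
      induction n with
      | zero => intro a b; rfl
      | succ n ih => intro a b; rw [Function.iterate_succ_apply, Function.iterate_succ_apply,
          Function.iterate_succ_apply, hadd, ih]
    exact this _
  zero _ := rfl
  mul p q a := by
    have hp : p = 0 ∨ p = 1 ∨ p = 2 := by revert p; decide
    have hq : q = 0 ∨ q = 1 ∨ q = 2 := by revert q; decide
    have v0 : (0 : F).val = 0 := rfl
    have v1 : (1 : F).val = 1 := rfl
    have v2 : (2 : F).val = 2 := rfl
    rcases hp with rfl | rfl | rfl <;> rcases hq with rfl | rfl | rfl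
    · rfl
    · rfl
    · rfl
    · rfl
    · rfl
    · exact (h3 a).symm
    · rfl
    · exact (h3 a).symm
    · change σ a = σ (σ (σ (σ a)))
      rw [h3]
  fpf p a hp h := by
    have hall : ∀ p : F, p = 0 ∨ p = 1 ∨ p = 2 := by decide
    rcases hall p with rfl | rfl | rfl
    · exact absurd rfl hp
    · exact hf a h
    · have h' : σ (σ a) = a := h
      apply hf
      have := h3 a
      rw [h'] at this
      exact this

/-- product of twists -/
def Twist.prod {A B : Type} [AddCommGroup A] [AddCommGroup B] (τ : Twist A) (τ' : Twist B) :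
    Twist (A × B) where
  s p a := (τ.s p a.1, τ'.s p a.2)
  add p _ _ := Prod.ext (τ.add p _ _) (τ'.add p _ _)
  zero _ := Prod.ext (τ.zero _) (τ'.zero _)
  mul p q _ := Prod.ext (τ.mul p q _) (τ'.mul p q _)
  fpf p _ hp h := Prod.ext (τ.fpf p _ hp (congrArg Prod.fst h)) (τ'.fpf p _ hp (congrArg Prod.snd h))

theorem exists_twist_sq (m : ℕ) (hm : Nat.Coprime 3 m) (hm0 : 0 < m) :
    ∃ (A : Type) (_ : AddCommGroup A) (_ : Finite A), Nonempty (Twist A) ∧ Nat.card A = m ^ 2 := by
  have : NeZero m := ⟨by omega⟩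
  refine ⟨ZMod m × ZMod m, inferInstance, inferInstance, ⟨Twist.mk' (fun a => (-a.2, a.1 - a.2))
    ?_ ?_ ?_⟩, ?_⟩
  · intro a b
    refine Prod.ext ?_ ?_
    · change -(a.2 + b.2) = -a.2 + -b.2
      ring
    · change (a.1 + b.1) - (a.2 + b.2) = (a.1 - a.2) + (b.1 - b.2)
      ring
  · intro a
    refine Prod.ext ?_ ?_
    · change -(-a.2 - (a.1 - a.2)) = a.1
      ring
    · change -(a.1 - a.2) - (-a.2 - (a.1 - a.2)) = a.2
      ring
  · intro a h
    have h1 : -a.2 = a.1 := congrArg Prod.fst h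
    have h2 : a.1 - a.2 = a.2 := congrArg Prod.snd h
    have h3 : (3 : ZMod m) * a.2 = 0 := by linear_combination -h1 - h2
    have hu : IsUnit (3 : ZMod m) := by
      have := (ZMod.isUnit_iff_coprime 3 m).2 hm
      simpa using this
    have h4 : a.2 = 0 := by
      have := (hu.mul_right_eq_zero).1 h3
      exact this
    have h5 : a.1 = 0 := by rw [← h1, h4, neg_zero]
    exact Prod.ext h5 h4
  · rw [Nat.card_prod, Nat.card_zmod]; ring

theorem twist_small (c : ℕ) (hc : c = 1 ∨ c = 7 ∨ c = 13 ∨ c = 19) :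
    ∃ (A : Type) (_ : AddCommGroup A) (_ : Finite A), Nonempty (Twist A) ∧ Nat.card A = c := by
  rcases hc with rfl | rfl | rfl | rfl
  · exact ⟨ZMod 1, inferInstance, inferInstance, ⟨Twist.mk' (fun a => a) (fun _ _ => rfl)
      (fun _ => rfl) (fun a _ => Subsingleton.elim _ _)⟩, by rw [Nat.card_zmod]⟩
  · exact ⟨ZMod 7, inferInstance, inferInstance, ⟨Twist.mk' (fun a => 2 * a)
      (fun _ _ => mul_add _ _ _) (by decide) (by decide)⟩, by rw [Nat.card_zmod]⟩
  · exact ⟨ZMod 13, inferInstance, inferInstance, ⟨Twist.mk' (fun a => 3 * a)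
      (fun _ _ => mul_add _ _ _) (by decide) (by decide)⟩, by rw [Nat.card_zmod]⟩
  · exact ⟨ZMod 19, inferInstance, inferInstance, ⟨Twist.mk' (fun a => 7 * a)
      (fun _ _ => mul_add _ _ _) (by decide) (by decide)⟩, by rw [Nat.card_zmod]⟩

theorem exists_twist (c m : ℕ) (hc : c = 1 ∨ c = 7 ∨ c = 13 ∨ c = 19) (hm : Nat.Coprime 3 m)
    (hm0 : 0 < m) :
    ∃ (A : Type) (_ : AddCommGroup A) (_ : Finite A),
      Nonempty (Twist A) ∧ Nat.card A = c * m ^ 2 := by
  obtain ⟨A, _, _, ⟨τ⟩, hA⟩ := exists_twist_sq m hm hm0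
  obtain ⟨B, _, _, ⟨τ'⟩, hB⟩ := twist_small c hc
  exact ⟨B × A, inferInstance, inferInstance, ⟨τ'.prod τ⟩, by rw [Nat.card_prod, hA, hB]⟩

end Pool.Agent.Lib.MP_cfac74_al
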