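import Pool.Agent.Lib.MP_cfac74_al.Face
import Pool.Agent.Lib.MP_cfac74_al.Tw
import Pool.Agent.Lib.MP_cfac74_al.Num

/-! All large odd numbers are class numbers of non-abelian groups of odd order. -/

namespace Pool.Agent.Lib.MP_cfac74_al

theorem nine_pow_mod (n : ℕ) : (9 : ZMod 16) ^ n = 1 ∨ (9 : ZMod 16) ^ n = 9 := by
  induction n with
  | zero => left; rfl
  | succ n ih =>
    rcases ih with h | h
    · right; rw [pow_succ, h, one_mul]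
    · left; rw [pow_succ, h]; rfl

theorem choose_c (t : ℕ) (ht : Odd t) : ∃ c : ℕ, (c = 1 ∨ c = 7 ∨ c = 13 ∨ c = 19) ∧
    ((t : ZMod 16) = c ∨ (t : ZMod 16) = c + 8) := by
  obtain ⟨s, hs⟩ := ht
  have h1 : t % 16 = 1 ∨ t % 16 = 3 ∨ t % 16 = 5 ∨ t % 16 = 7 ∨ t % 16 = 9 ∨ t % 16 = 11 ∨
    t % 16 = 13 ∨ t % 16 = 15 := by omega
  have h2 : (t : ZMod 16) = ((t % 16 : ℕ) : ZMod 16) := (ZMod.natCast_mod t 16).symm
  rw [h2]
  rcases h1 with h | h | h | h | h | h | h | h <;> rw [h]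
  · exact ⟨1, by decide, by decide⟩
  · exact ⟨19, by decide, by decide⟩
  · exact ⟨13, by decide, by decide⟩
  · exact ⟨7, by decide, by decide⟩
  · exact ⟨1, by decide, by decide⟩
  · exact ⟨19, by decide, by decide⟩
  · exact ⟨13, by decide, by decide⟩
  · exact ⟨7, by decide, by decide⟩

theorem choose_e (t c N K : ℕ) (hc : c = 1 ∨ c = 7 ∨ c = 13 ∨ c = 19)
    (ht : (t : ZMod 16) = c ∨ (t : ZMod 16) = c + 8) :
    ∃ e ≤ 1, (t : ZMod 16) = c * (9 ^ (e + N) + 9 ^ K - 1) + 8 := by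
  have key : ∀ x y : ZMod 16, (x = 1 ∨ x = 9) → (y = 1 ∨ y = 9) → ∀ c : ZMod 16,
      (c = 1 ∨ c = 7 ∨ c = 13 ∨ c = 19) → ∀ t : ZMod 16, (t = c ∨ t = c + 8) →
      (t = c * (x + y - 1) + 8 ∨ t = c * (9 * x + y - 1) + 8) := by decide
  have hc' : (c : ZMod 16) = 1 ∨ (c : ZMod 16) = 7 ∨ (c : ZMod 16) = 13 ∨ (c : ZMod 16) = 19 := by
    rcases hc with rfl | rfl | rfl | rfl <;> decide
  rcases key _ _ (nine_pow_mod N) (nine_pow_mod K) _ hc' _ ht with h | h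
  · exact ⟨0, by norm_num, by rw [zero_add]; exact h⟩
  · exact ⟨1, le_rfl, by rw [pow_add, pow_one]; exact h⟩

theorem growth (k : ℕ) (hk : 25 ≤ k) : 1050 * 3 ^ k ≤ 4 ^ k := by
  induction k, hk using Nat.le_induction with
  | base => norm_num
  | succ k _ ih => rw [pow_succ, pow_succ]; omega

theorem all_large (t : ℕ) (ht : 9 ^ (4 ^ 25) ≤ t) (hodd : Odd t) :
    ∃ (G : Type) (_ : Group G) (_ : Finite G), Odd (Nat.card G) ∧
      (∃ a b : G, a * b ≠ b * a) ∧ Nat.card (ConjClasses G) = t := by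
  obtain ⟨k25, hk25⟩ : ∃ x : ℕ, x = 25 := ⟨_, rfl⟩
  rw [← hk25] at ht
  have hk25' : 25 ≤ k25 := hk25.ge
  clear hk25
  have ht0 : t ≠ 0 := by
    have : 0 < 9 ^ (4 ^ k25) := by positivity
    omega
  obtain ⟨l, hl⟩ : ∃ l, l = Nat.log 9 t := ⟨_, rfl⟩
  have hl1 : 9 ^ l ≤ t := by rw [hl]; exact Nat.pow_log_le_self 9 ht0
  have hl2 : t < 9 ^ (l + 1) := by rw [hl]; exact Nat.lt_pow_succ_log_self (by norm_num) t
  have hl3 : 4 ^ k25 ≤ l := by
    rw [hl]; exact Nat.le_log_of_pow_le (by norm_num) ht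
  have hl0 : l ≠ 0 := by
    have : 0 < 4 ^ k25 := by positivity
    omega
  obtain ⟨k, hk⟩ : ∃ k, k = Nat.log 4 l := ⟨_, rfl⟩
  have hk1 : 4 ^ k ≤ l := by rw [hk]; exact Nat.pow_log_le_self 4 hl0
  have hk2 : l < 4 ^ (k + 1) := by rw [hk]; exact Nat.lt_pow_succ_log_self (by norm_num) l
  have hk3 : k25 ≤ k := by rw [hk]; exact Nat.le_log_of_pow_le (by norm_num) hl3
  have hgr := growth k (le_trans hk25' hk3)
  have hk4 : k < 3 ^ k := Nat.lt_pow_self (by norm_num)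
  -- parameters
  obtain ⟨x, hx⟩ : ∃ x, x = 3 ^ k := ⟨_, rfl⟩
  have hx1 : 1 ≤ x := by rw [hx]; exact Nat.one_le_pow _ _ (by norm_num)
  have hK2 : 3 ^ (k + 1 + 2) = 27 * x := by rw [hx]; ring
  have hK1 : 3 ^ (k + 1 + 1) = 9 * x := by rw [hx]; ring
  rw [← hx] at hgr hk4
  obtain ⟨r, hr⟩ : ∃ r, r = 2 * 3 ^ (k + 1 + 2) - 1 := ⟨_, rfl⟩
  obtain ⟨r0, hr0⟩ : ∃ r0, r0 = 2 * 3 ^ (k + 1 + 1) - 1 := ⟨_, rfl⟩
  have hr' : r = 54 * x - 1 := by rw [hr, hK2]; omega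
  have hr0' : r0 = 18 * x - 1 := by rw [hr0, hK1]; omega
  obtain ⟨M, hM⟩ : ∃ M, M + (3 * (1 + 3 * r + (k + 1) + 3) + 9) = l :=
    ⟨l - (3 * (1 + 3 * r + (k + 1) + 3) + 9), by omega⟩
  have hMle : M ≤ 2 ^ (2 * (k + 1)) := by
    have : 2 ^ (2 * (k + 1)) = 4 ^ (k + 1) := by rw [pow_mul]; norm_num
    rw [this]; omega
  obtain ⟨c, hc, htc⟩ := choose_c t hodd
  obtain ⟨e, he, hte⟩ := choose_e t c (M + 3 * r) (k + 1 + 3) hc htc
  have hMe : M + e + 3 * r = e + (M + 3 * r) := by ring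
  obtain ⟨a0, d0, i1, i2, i3, i4⟩ := interface (k + 1) M e (by omega) hMle
  rw [← hr] at i1 i2 i3 i4
  rw [← hr0] at i4
  have hmod : ∀ z : ℕ, t % 16 = ((528 * z + c + 8) * a0 + 2 * (528 * z + c) * d0) % 16 := by
    intro z
    have h5 := i3 (528 * z + c)
    have h6 : ((528 * z + c : ℕ) : ZMod 16) = (c : ZMod 16) := by
      push_cast
      have : (528 : ZMod 16) = 0 := by decide
      rw [this, zero_mul, zero_add]
    rw [h6, hMe, ← hte] at h5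
    exact (ZMod.natCast_eq_natCast_iff' _ _ 16).1 h5.symm
  obtain ⟨m, i, j, hm1, hi, hj, hij⟩ := solve (k + 1) e M r r0 a0 d0 c t hc i1 i2 hmod
    (le_trans (Nat.pow_le_pow_right (by norm_num) (by omega)) hl1)
    (lt_of_lt_of_le hl2 (Nat.pow_le_pow_right (by norm_num) (by omega)))
    (by omega) (by omega)
  have hcop : Nat.Coprime 3 (528 * m + 1) := by
    rw [Nat.Prime.coprime_iff_not_dvd Nat.prime_three]
    omega
  obtain ⟨A, _, _, ⟨τ⟩, hA⟩ := exists_twist c (528 * m + 1) hc hcop (Nat.succ_pos _)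
  have hAodd : Odd (Nat.card A) := by
    rw [hA]
    refine Odd.mul ?_ (Odd.pow ⟨264 * m, by ring⟩)
    rcases hc with rfl | rfl | rfl | rfl <;> decide
  have hA2 : 2 ≤ Nat.card A := by
    rw [hA]
    have h7 : 2 ≤ (528 * m + 1) ^ 2 := le_trans (by omega) (Nat.le_self_pow two_ne_zero _)
    have h8 : 1 * (528 * m + 1) ^ 2 ≤ c * (528 * m + 1) ^ 2 := Nat.mul_le_mul_right _ (by omega)
    omega
  obtain ⟨G, _, _, g1, g2, g3⟩ := i4 A τ hA2 hAodd i hi j hj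
  refine ⟨G, inferInstance, inferInstance, g1, g2, ?_⟩
  rw [g3, hA, hij]

end Pool.Agent.Lib.MP_cfac74_al
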