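import Pool.Agent.Lib.MP_cfac74_al.Tri

/-! The groups and their class numbers. -/

namespace Pool.Agent.Lib.MP_cfac74_al

open Finset

/-- An action of `Z/3` on `A` in which nontrivial elements fix only `0`. -/
structure Twist (A : Type) [AddCommGroup A] where
  s : F → A → A
  add : ∀ p a b, s p (a + b) = s p a + s p b
  zero : ∀ a, s 0 a = a
  mul : ∀ p q a, s (p + q) a = s p (s q a)
  fpf : ∀ p a, p ≠ 0 → s p a = a → a = 0

/-- carrier of the group -/
structure TG (A X Y W : Type) where
  a : A
  x : X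
  y : Y
  w : W

variable {A X Y W : Type} [AddCommGroup A] [AddCommGroup X] [AddCommGroup Y] [AddCommGroup W]

omit [AddCommGroup A] [AddCommGroup X] [AddCommGroup Y] [AddCommGroup W] in
theorem TG.ext' {g h : TG A X Y W} (ha : g.a = h.a) (hx : g.x = h.x) (hy : g.y = h.y)
    (hw : g.w = h.w) : g = h := by
  cases g; cases h; simp_all

theorem Twist.s_zero (τ : Twist A) (p : F) : τ.s p 0 = 0 := by
  have := τ.add p 0 0
  rw [add_zero] at this
  simpa using this

/-- the group structure -/
@[reducible] def tgGroup (τ : Twist A) (π : X →+ F) (β : X → Y → W)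
    (hx : ∀ x x' y, β (x + x') y = β x y + β x' y)
    (hy : ∀ x y y', β x (y + y') = β x y + β x y') : Group (TG A X Y W) :=
  letI m : Mul (TG A X Y W) := ⟨fun g h => ⟨g.a + τ.s (π g.x) h.a, g.x + h.x, g.y + h.y,
    g.w + h.w + β g.x h.y⟩⟩
  letI o : One (TG A X Y W) := ⟨⟨0, 0, 0, 0⟩⟩
  letI i : Inv (TG A X Y W) := ⟨fun g => ⟨-τ.s (-π g.x) g.a, -g.x, -g.y, -g.w + β g.x g.y⟩⟩
  have b0 : ∀ y, β 0 y = 0 := fun y => by
    have := hx 0 0 y
    rw [add_zero] at this
    simpa using this
  have bn : ∀ x y, β (-x) y = - β x y := fun x y => by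
    have := hx x (-x) y
    rw [add_neg_cancel, b0] at this
    exact (neg_eq_of_add_eq_zero_right this.symm).symm
  Group.ofLeftAxioms
    (fun g h k => by
      apply TG.ext'
      · change g.a + τ.s (π g.x) h.a + τ.s (π (g.x + h.x)) k.a =
          g.a + τ.s (π g.x) (h.a + τ.s (π h.x) k.a)
        rw [τ.add, ← τ.mul, map_add, add_assoc]
      · exact add_assoc _ _ _
      · exact add_assoc _ _ _
      · change g.w + h.w + β g.x h.y + k.w + β (g.x + h.x) k.y =
          g.w + (h.w + k.w + β h.x k.y) + β g.x (h.y + k.y)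
        rw [hx, hy]; abel)
    (fun g => by
      apply TG.ext'
      · change 0 + τ.s (π 0) g.a = g.a
        rw [map_zero, τ.zero, zero_add]
      · exact zero_add _
      · exact zero_add _
      · change 0 + g.w + β 0 g.y = g.w
        rw [b0, zero_add, add_zero])
    (fun g => by
      apply TG.ext'
      · change -τ.s (-π g.x) g.a + τ.s (π (-g.x)) g.a = 0
        rw [map_neg, neg_add_cancel]
      · exact neg_add_cancel _
      · exact neg_add_cancel _
      · change -g.w + β g.x g.y + g.w + β (-g.x) g.y = 0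
        rw [bn]; abel)

/-- number of pairs in `A` -/
theorem twistCount [Finite A] (τ : Twist A) (p q : F) :
    Nat.card {c : A × A // c.1 + τ.s p c.2 = c.2 + τ.s q c.1} =
      if p = 0 ∧ q = 0 then Nat.card A * Nat.card A else Nat.card A := by
  have key : ∀ p : F, p ≠ 0 → Function.Bijective (fun a : A => a - τ.s p a) := by
    intro p hp
    apply Finite.injective_iff_bijective.1
    intro a b hab
    have h : τ.s p (a - b) = a - b := by
      have h1 : τ.s p (a - b) = τ.s p a - τ.s p b := by
        have := τ.add p (a - b) b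
        rw [sub_add_cancel] at this
        rw [this]; abel
      have h2 : a - τ.s p a = b - τ.s p b := hab
      rw [h1, sub_eq_sub_iff_add_eq_add]
      have h3 := sub_eq_sub_iff_add_eq_add.1 h2
      rw [add_comm, ← h3]; 
    exact sub_eq_zero.1 (τ.fpf p _ hp h)
  split_ifs with h
  · obtain ⟨rfl, rfl⟩ := h
    rw [← Nat.card_prod]
    apply Nat.card_congr
    refine (Equiv.subtypeUnivEquiv fun c => ?_)
    rw [τ.zero, τ.zero, add_comm]
  · by_cases hp : p = 0
    · have hq : q ≠ 0 := fun hq => h ⟨hp, hq⟩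
      subst hp
      have E : {c : A × A // c.1 + τ.s 0 c.2 = c.2 + τ.s q c.1} ≃ A :=
        { toFun := fun c => c.1.2
          invFun := fun a => ⟨(0, a), by
            change 0 + τ.s 0 a = a + τ.s q 0
            rw [τ.zero, τ.s_zero]; abel⟩
          left_inv := fun c => by
            apply Subtype.ext
            have h1 := c.2
            rw [τ.zero] at h1
            have h2 : c.1.1 = τ.s q c.1.1 := by
              rw [add_comm] at h1
              exact add_left_cancel h1
            have h3 := τ.fpf q _ hq h2.symm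
            exact Prod.ext h3.symm rfl
          right_inv := fun _ => rfl }
      exact Nat.card_congr E
    · let e := Equiv.ofBijective _ (key p hp)
      have he : ∀ a, e a = a - τ.s p a := fun _ => rfl
      have E : {c : A × A // c.1 + τ.s p c.2 = c.2 + τ.s q c.1} ≃ A :=
        { toFun := fun c => c.1.1
          invFun := fun a => ⟨(a, e.symm (a - τ.s q a)), by
            change a + τ.s p (e.symm (a - τ.s q a)) = e.symm (a - τ.s q a) + τ.s q a
            have h1 := he (e.symm (a - τ.s q a))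
            rw [Equiv.apply_symm_apply] at h1
            rw [sub_eq_sub_iff_add_eq_add] at h1
            rw [h1]⟩
          left_inv := fun c => by
            apply Subtype.ext
            refine Prod.ext rfl ?_
            change e.symm (c.1.1 - τ.s q c.1.1) = c.1.2
            rw [Equiv.symm_apply_eq, he, sub_eq_sub_iff_add_eq_add]
            exact c.2
          right_inv := fun _ => rfl }
      exact Nat.card_congr E

/-- the carrier as a product -/
def tgEquiv (A X Y W : Type) : TG A X Y W ≃ A × X × Y × W where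
  toFun g := (g.a, g.x, g.y, g.w)
  invFun t := ⟨t.1, t.2.1, t.2.2.1, t.2.2.2⟩
  left_inv _ := rfl
  right_inv _ := rfl

instance [Finite A] [Finite X] [Finite Y] [Finite W] : Finite (TG A X Y W) :=
  Finite.of_equiv _ (tgEquiv A X Y W).symm

omit [AddCommGroup A] [AddCommGroup X] [AddCommGroup Y] [AddCommGroup W] in
theorem card_TG : Nat.card (TG A X Y W) =
    Nat.card A * (Nat.card X * (Nat.card Y * Nat.card W)) := by
  rw [Nat.card_congr (tgEquiv A X Y W), Nat.card_prod, Nat.card_prod, Nat.card_prod]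

open Classical in
theorem commCount [Finite A] [Finite X] [Finite Y] [Finite W]
    (τ : Twist A) (π : X →+ F) (β : X → Y → W)
    (hx : ∀ x x' y, β (x + x') y = β x y + β x' y)
    (hy : ∀ x y y', β x (y + y') = β x y + β x y') :
    letI := tgGroup τ π β hx hy
    Nat.card {p : TG A X Y W × TG A X Y W // Commute p.1 p.2} =
      (Nat.card W * Nat.card W) * (Nat.card A *
        Nat.card {q : (X × Y) × (X × Y) // β q.1.1 q.2.2 = β q.2.1 q.1.2} +
        Nat.card A * (Nat.card A - 1) *
        Nat.card {q : (X × Y) × (X × Y) // β q.1.1 q.2.2 = β q.2.1 q.1.2 ∧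
          (π q.1.1 = 0 ∧ π q.2.1 = 0)}) := by
  let _ := tgGroup τ π β hx hy
  have hc : ∀ g h : TG A X Y W, Commute g h ↔
      (g.a + τ.s (π g.x) h.a = h.a + τ.s (π h.x) g.a ∧ β g.x h.y = β h.x g.y) := by
    intro g h
    have hm : ∀ g h : TG A X Y W, g * h = ⟨g.a + τ.s (π g.x) h.a, g.x + h.x, g.y + h.y,
      g.w + h.w + β g.x h.y⟩ := fun _ _ => rfl
    constructor
    · intro e
      have e' : g * h = h * g := e
      rw [hm, hm] at e'
      injection e' with e1 e2 e3 e4
      refine ⟨e1, ?_⟩
      rw [add_comm h.w g.w] at e4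
      exact add_left_cancel e4
    · rintro ⟨e1, e4⟩
      change g * h = h * g
      rw [hm, hm]
      apply TG.ext'
      · exact e1
      · exact add_comm _ _
      · exact add_comm _ _
      · change g.w + h.w + β g.x h.y = h.w + g.w + β h.x g.y
        rw [e4, add_comm g.w h.w]
  have E : {p : TG A X Y W × TG A X Y W // Commute p.1 p.2} ≃
      (W × W) × (Σ q : {q : (X × Y) × (X × Y) // β q.1.1 q.2.2 = β q.2.1 q.1.2},
        {c : A × A // c.1 + τ.s (π q.1.1.1) c.2 = c.2 + τ.s (π q.1.2.1) c.1}) :=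
    { toFun := fun p => ((p.1.1.w, p.1.2.w), ⟨⟨((p.1.1.x, p.1.1.y), (p.1.2.x, p.1.2.y)),
        ((hc _ _).1 p.2).2⟩, ⟨(p.1.1.a, p.1.2.a), ((hc _ _).1 p.2).1⟩⟩)
      invFun := fun s => ⟨(⟨s.2.2.1.1, s.2.1.1.1.1, s.2.1.1.1.2, s.1.1⟩,
        ⟨s.2.2.1.2, s.2.1.1.2.1, s.2.1.1.2.2, s.1.2⟩), (hc _ _).2 ⟨s.2.2.2, s.2.1.2⟩⟩
      left_inv := fun _ => rfl
      right_inv := fun _ => rfl }
  have : Fintype {q : (X × Y) × (X × Y) // β q.1.1 q.2.2 = β q.2.1 q.1.2} := Fintype.ofFinite _
  rw [Nat.card_congr E, Nat.card_prod, Nat.card_prod, Nat.card_sigma]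
  congr 1
  have hA : 0 < Nat.card A := Nat.card_pos
  have h1 : ∀ q : {q : (X × Y) × (X × Y) // β q.1.1 q.2.2 = β q.2.1 q.1.2},
      Nat.card {c : A × A // c.1 + τ.s (π q.1.1.1) c.2 = c.2 + τ.s (π q.1.2.1) c.1} =
      Nat.card A + (if π q.1.1.1 = 0 ∧ π q.1.2.1 = 0 then Nat.card A * (Nat.card A - 1) else 0) := by
    intro q
    rw [twistCount]
    split_ifs
    · obtain ⟨n, hn⟩ : ∃ n, Nat.card A = n + 1 := ⟨Nat.card A - 1, by omega⟩
      rw [hn]; simp only [Nat.add_sub_cancel]; ring
    · rfl
  rw [Finset.sum_congr rfl (fun q _ => h1 q), Finset.sum_add_distrib, Finset.sum_const,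
    ← Finset.sum_filter, Finset.sum_const, Finset.card_univ, ← Nat.card_eq_fintype_card]
  have h2 : (Finset.univ.filter (fun q : {q : (X × Y) × (X × Y) //
      β q.1.1 q.2.2 = β q.2.1 q.1.2} => π q.1.1.1 = 0 ∧ π q.1.2.1 = 0)).card =
      Nat.card {q : (X × Y) × (X × Y) // β q.1.1 q.2.2 = β q.2.1 q.1.2 ∧
          (π q.1.1 = 0 ∧ π q.2.1 = 0)} := by
    rw [← Fintype.card_subtype, ← Nat.card_eq_fintype_card]
    apply Nat.card_congr
    exact { toFun := fun q => ⟨q.1.1, q.1.2, q.2⟩
            invFun := fun q => ⟨⟨q.1, q.2.1⟩, q.2.2⟩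
            left_inv := fun _ => rfl
            right_inv := fun _ => rfl }
  rw [h2]
  simp only [smul_eq_mul]
  ring

end Pool.Agent.Lib.MP_cfac74_al
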