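import Pool.Agent.Lib.MP_cfac74_al.Asm

/-! The main structural theorem. -/

namespace Pool.Agent.Lib.MP_cfac74_al

open Finset

/-- parameter space of one side -/
abbrev Sd (S : Type) : Type := (S × F) × F

/-- parameter space of both sides -/
abbrev Pd (S : Type) : Type := Sd S × Sd S

section
variable {S : Type} [AddCommGroup S] [Module F S] [Finite S]

/-- kernel size of the tree block at `z = 0` -/
noncomputable def R0f (T : Tree S) (s : Pd S) : ℕ :=
  lk T.step.step.E (0, s.1) * rk T.step.step.E (0, s.2)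

/-- kernel size function of the tree block -/
noncomputable def Tf (T : Tree S) (f : Sd S → Sd S → F) (u : F × Pd S) : ℕ :=
  if u.1 = 0 then R0f T u.2 else if f (u.1 • u.2.1) (u.1 • u.2.2) = 0 then 3 else 1

theorem Tf_Rz (T : Tree S) (f : Sd S → Sd S → F) : Rz (F × Pd S) (Tf T f) :=
  twoSided T.step.step T.step.step f

/-- the assembled kernel size function -/
noncomputable def Lf (T : Tree S) (wt : S × S → ℕ) (e : ℕ) (f g : Sd S → Sd S → F)
    (u : F × (F × Pd S)) : ℕ :=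
  3 ^ wt (u.2.2.1.1.1, u.2.2.2.1.1) * (if u.2.1 = 0 then 3 else 1) *
    (if u.1 = 0 then 3 else 1) ^ e * (if u.1 = 0 then Tf T f u.2 * Tf T f 0 else 1) *
    Tf T g (u.1, u.2.2)

/-- projection to the weighted coordinates -/
def prW (S : Type) [AddCommGroup S] : F × (F × Pd S) →+ S × S where
  toFun u := (u.2.2.1.1.1, u.2.2.2.1.1)
  map_zero' := rfl
  map_add' _ _ := rfl

/-- projection to the second coordinate -/
def prA (S : Type) [AddCommGroup S] : F × (F × Pd S) →+ F where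
  toFun u := u.2.1
  map_zero' := rfl
  map_add' _ _ := rfl

/-- reordering of coordinates -/
def prC (S : Type) [AddCommGroup S] : F × (F × Pd S) →+ (F × Pd S) × F where
  toFun u := (u.2, u.1)
  map_zero' := rfl
  map_add' _ _ := rfl

/-- dropping the second coordinate -/
def prB (S : Type) [AddCommGroup S] : F × (F × Pd S) →+ F × Pd S where
  toFun u := (u.1, u.2.2)
  map_zero' := rfl
  map_add' _ _ := rfl

theorem Lf_Rz (T : Tree S) (wt : S × S → ℕ) (hwt : Rz (S × S) (fun s => 3 ^ wt s)) (e : ℕ)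
    (f g : Sd S → Sd S → F) : Rz (F × (F × Pd S)) (Lf T wt e f g) :=
  (((((hwt.comap (prW S)).mul (Rz.base.comap (prA S))).mul
    ((Rz.base.comap (AddMonoidHom.fst F (F × Pd S))).pow e)).mul
    ((Tf_Rz T f).border.comap (prC S))).mul ((Tf_Rz T g).comap (prB S))).congr fun _ => rfl

/-- `3` on the zero set and `1` elsewhere -/
def hf (f : Sd S → Sd S → F) (s : Pd S) : ℕ := if f s.1 s.2 = 0 then 3 else 1

theorem Tf_zero (T : Tree S) (f : Sd S → Sd S → F) (s : Pd S) : Tf T f (0, s) = R0f T s := by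
  change (if (0 : F) = 0 then R0f T s else _) = _
  rw [if_pos rfl]

theorem Tf_one (T : Tree S) (f : Sd S → Sd S → F) (s : Pd S) : Tf T f (1, s) = hf f s := by
  change (if (1 : F) = 0 then R0f T s else if f ((1 : F) • s.1) ((1 : F) • s.2) = 0 then 3 else 1) =
    if f s.1 s.2 = 0 then 3 else 1
  rw [if_neg one_ne_zero, one_smul, one_smul]

theorem Lf_00 (T : Tree S) (wt : S × S → ℕ) (e : ℕ) (f g : Sd S → Sd S → F) (s : Pd S) :
    Lf T wt e f g (0, (0, s)) = 3 ^ wt (s.1.1.1, s.2.1.1) * 3 * 3 ^ e * (R0f T s * R0f T 0) *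
      R0f T s := by
  have h0 : Tf T f 0 = R0f T 0 := Tf_zero T f 0
  change 3 ^ wt (s.1.1.1, s.2.1.1) * (if (0 : F) = 0 then 3 else 1) *
    (if (0 : F) = 0 then 3 else 1) ^ e * (if (0 : F) = 0 then Tf T f (0, s) * Tf T f 0 else 1) *
    Tf T g (0, s) = _
  rw [if_pos rfl, if_pos rfl, Tf_zero, Tf_zero, h0]

theorem Lf_01 (T : Tree S) (wt : S × S → ℕ) (e : ℕ) (f g : Sd S → Sd S → F) (s : Pd S) :
    Lf T wt e f g (0, (1, s)) = 3 ^ wt (s.1.1.1, s.2.1.1) * 3 ^ e * (hf f s * R0f T 0) *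
      R0f T s := by
  have h0 : Tf T f 0 = R0f T 0 := Tf_zero T f 0
  change 3 ^ wt (s.1.1.1, s.2.1.1) * (if (1 : F) = 0 then 3 else 1) *
    (if (0 : F) = 0 then 3 else 1) ^ e * (if (0 : F) = 0 then Tf T f (1, s) * Tf T f 0 else 1) *
    Tf T g (0, s) = _
  rw [if_neg one_ne_zero, if_pos rfl, if_pos rfl, Tf_zero, Tf_one, h0, mul_one]

theorem Lf_1z (T : Tree S) (wt : S × S → ℕ) (e : ℕ) (f g : Sd S → Sd S → F) (z : F) (s : Pd S) :
    Lf T wt e f g (1, (z, s)) = 3 ^ wt (s.1.1.1, s.2.1.1) * (if z = 0 then 3 else 1) *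
      hf g s := by
  change 3 ^ wt (s.1.1.1, s.2.1.1) * (if z = 0 then 3 else 1) *
    (if (1 : F) = 0 then 3 else 1) ^ e * (if (1 : F) = 0 then Tf T f (z, s) * Tf T f 0 else 1) *
    Tf T g (1, s) = _
  rw [if_neg one_ne_zero, if_neg one_ne_zero, Tf_one, one_pow, mul_one, mul_one]

open Classical in
/-- the toggle function of a set -/
noncomputable def tog (E : Finset (Pd S)) : Sd S → Sd S → F :=
  fun v v' => if (v, v') ∈ E then 0 else 1

open Classical in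
omit [AddCommGroup S] [Module F S] [Finite S] in
theorem hf_tog (E : Finset (Pd S)) (s : Pd S) :
    hf (tog E) s ^ 2 = 1 + if s ∈ E then 8 else 0 := by
  unfold hf tog
  obtain ⟨v, v'⟩ := s
  by_cases h : (v, v') ∈ E
  · simp [h]
  · simp [h]

/-- the weight on the whole parameter space -/
def Wf (wt : S × S → ℕ) (s : Pd S) : ℕ := wt (s.1.1.1, s.2.1.1)

/-- base value of the first sum -/
noncomputable def A0 [Fintype (Pd S)] (T : Tree S) (wt : S × S → ℕ) (e : ℕ) : ℕ :=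
  ∑ s : Pd S, (9 ^ Wf wt s * 9 * 9 ^ e * R0f T 0 ^ 2 * R0f T s ^ 4 +
    2 * (9 ^ Wf wt s * 9 ^ e * R0f T 0 ^ 2 * R0f T s ^ 2))

/-- base value of the second sum -/
def D0 [Fintype (Pd S)] (wt : S × S → ℕ) : ℕ :=
  11 * ∑ s : Pd S, 9 ^ Wf wt s

theorem nine_pow (n : ℕ) : (3 ^ n) ^ 2 = 9 ^ n := by
  rw [← pow_mul, mul_comm, pow_mul]
  norm_num

open Classical in
theorem sumA [Fintype (Pd S)] (T : Tree S) (wt : S × S → ℕ) (e : ℕ) (E : Finset (Pd S))
    (g : Sd S → Sd S → F) (tau : ℕ) (hE : ∀ s ∈ E, R0f T s = tau) :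
    ∑ s : Pd S, Lf T wt e (tog E) g (0, (0, s)) ^ 2 +
      2 * ∑ s : Pd S, Lf T wt e (tog E) g (0, (1, s)) ^ 2 =
    A0 T wt e + 16 * (9 ^ e * R0f T 0 ^ 2 * tau ^ 2) * ∑ s ∈ E, 9 ^ Wf wt s := by
  have h1 : ∀ s : Pd S, Lf T wt e (tog E) g (0, (0, s)) ^ 2 =
      9 ^ Wf wt s * 9 * 9 ^ e * R0f T 0 ^ 2 * R0f T s ^ 4 := by
    intro s
    rw [Lf_00, ← nine_pow, ← nine_pow]
    unfold Wf
    ring
  have h2 : ∀ s : Pd S, 2 * Lf T wt e (tog E) g (0, (1, s)) ^ 2 =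
      2 * (9 ^ Wf wt s * 9 ^ e * R0f T 0 ^ 2 * R0f T s ^ 2) +
      (if s ∈ E then 16 * (9 ^ e * R0f T 0 ^ 2 * tau ^ 2) * 9 ^ Wf wt s else 0) := by
    intro s
    have h3 : 2 * Lf T wt e (tog E) g (0, (1, s)) ^ 2 =
      2 * (9 ^ Wf wt s * 9 ^ e * R0f T 0 ^ 2 * R0f T s ^ 2) * hf (tog E) s ^ 2 := by
      rw [Lf_01, ← nine_pow, ← nine_pow]
      unfold Wf
      ring
    rw [h3, hf_tog]
    split_ifs with hs
    · rw [hE s hs]; ring
    · ring
  rw [Finset.mul_sum, Finset.sum_congr rfl (fun s _ => h1 s),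
    Finset.sum_congr rfl (fun s _ => h2 s), Finset.sum_add_distrib, ← add_assoc,
    ← Finset.sum_add_distrib, ← Finset.sum_filter, Finset.filter_mem_eq_inter,
    Finset.univ_inter, Finset.mul_sum]
  rfl

open Classical in
theorem sumD [Fintype (Pd S)] (T : Tree S) (wt : S × S → ℕ) (e : ℕ) (E : Finset (Pd S))
    (f : Sd S → Sd S → F) :
    ∑ s : Pd S, Lf T wt e f (tog E) (1, (0, s)) ^ 2 +
      ∑ s : Pd S, Lf T wt e f (tog E) (1, (1, s)) ^ 2 +
      ∑ s : Pd S, Lf T wt e f (tog E) (1, (-1, s)) ^ 2 =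
    D0 wt + 88 * ∑ s ∈ E, 9 ^ Wf wt s := by
  have h1 : ∀ s : Pd S, Lf T wt e f (tog E) (1, (0, s)) ^ 2 +
      Lf T wt e f (tog E) (1, (1, s)) ^ 2 + Lf T wt e f (tog E) (1, (-1, s)) ^ 2 =
      11 * 9 ^ Wf wt s + (if s ∈ E then 88 * 9 ^ Wf wt s else 0) := by
    intro s
    rw [Lf_1z, Lf_1z, Lf_1z, if_pos rfl, if_neg one_ne_zero,
      if_neg (neg_ne_zero.2 one_ne_zero), ← nine_pow]
    have h3 : (3 ^ wt (s.1.1.1, s.2.1.1) * 3 * hf (tog E) s) ^ 2 +
        (3 ^ wt (s.1.1.1, s.2.1.1) * 1 * hf (tog E) s) ^ 2 +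
        (3 ^ wt (s.1.1.1, s.2.1.1) * 1 * hf (tog E) s) ^ 2 =
        11 * (3 ^ wt (s.1.1.1, s.2.1.1)) ^ 2 * hf (tog E) s ^ 2 := by ring
    rw [h3, hf_tog]
    unfold Wf
    split_ifs <;> ring
  rw [← Finset.sum_add_distrib, ← Finset.sum_add_distrib, Finset.sum_congr rfl (fun s _ => h1 s),
    Finset.sum_add_distrib, ← Finset.sum_filter, Finset.filter_mem_eq_inter,
    Finset.univ_inter, ← Finset.mul_sum, ← Finset.mul_sum]
  rfl

end

end Pool.Agent.Lib.MP_cfac74_al
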