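import Pool.Agent.Lib.MP_cfac74_al.Two

/-! Congruence modulo 16, weights, and digit expansions with toggles. -/

namespace Pool.Agent.Lib.MP_cfac74_al

open Finset

theorem two_mul_odd_sq (n : ℕ) (h : Odd n) : (2 : ZMod 16) * ((n : ZMod 16) ^ 2 - 1) = 0 := by
  obtain ⟨k, rfl⟩ := h
  push_cast
  have : ∀ k : ZMod 16, (2 : ZMod 16) * ((2 * k + 1) ^ 2 - 1) = 0 := by decide
  exact this _

theorem neg_ne_self' {U : Type} [AddCommGroup U] [Module F U] (u : U) (h : -u = u) : u = 0 := by
  have h2 : (2 : F) • u = 0 := by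
    rw [two_smul]
    nth_rewrite 1 [← h]
    exact neg_add_cancel u
  have h3 : (2 : F) ≠ 0 := by decide
  exact (smul_eq_zero.1 h2).resolve_left h3

theorem sum_sq_mod {U : Type} [AddCommGroup U] [Module F U] [Fintype U] {L : U → ℕ}
    (h : Rz U L) : ((∑ u : U, L u ^ 2 : ℕ) : ZMod 16) =
      (L 0 : ZMod 16) ^ 2 + (Nat.card U : ZMod 16) - 1 := by
  classical
  have h1 : ∑ u ∈ (Finset.univ : Finset U).erase 0, (((L u : ZMod 16)) ^ 2 - 1) = 0 := by
    refine Finset.sum_involution (fun u _ => -u) ?_ ?_ ?_ ?_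
    · intro u _
      rw [h.neg]
      have := two_mul_odd_sq (L u) (h.odd u)
      linear_combination this
    · intro u hu _ he
      exact (Finset.mem_erase.1 hu).1 (neg_ne_self' u he)
    · intro u hu
      rw [Finset.mem_erase] at hu ⊢
      exact ⟨neg_ne_zero.2 hu.1, Finset.mem_univ _⟩
    · intro u _
      exact neg_neg u
  have h2 := Finset.add_sum_erase (Finset.univ : Finset U) (fun u => (((L u : ZMod 16)) ^ 2 - 1))
    (Finset.mem_univ 0)
  rw [h1, Finset.sum_sub_distrib, Finset.sum_const, Finset.card_univ,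
    ← Nat.card_eq_fintype_card] at h2
  push_cast
  rw [nsmul_eq_mul, mul_one] at h2
  linear_combination -h2

theorem sum_sq_odd {U : Type} [AddCommGroup U] {L : U → ℕ} (h : Rz U L) (s : Finset U)
    (hs : Odd s.card) : ((8 * ∑ u ∈ s, L u ^ 2 : ℕ) : ZMod 16) = 8 := by
  have h1 : Odd (∑ u ∈ s, L u ^ 2) := by
    rw [Finset.odd_sum_iff_odd_card_odd]
    have : s.filter (fun u => Odd (L u ^ 2)) = s := by
      apply Finset.filter_true_of_mem
      intro u _
      exact (h.odd u).pow
    rw [this]; exact hs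
  obtain ⟨k, hk⟩ := h1
  rw [hk]
  push_cast
  have : ∀ k : ZMod 16, (8 : ZMod 16) * (2 * k + 1) = 8 := by decide
  exact this _

/-- all weights below `2^n` are available on `T` -/
def Wt (T : Type) [AddCommGroup T] (n : ℕ) : Prop :=
  ∀ M, 1 ≤ M → M ≤ 2 ^ n → ∃ wt : T → ℕ, Rz T (fun s => 3 ^ wt s) ∧ wt 0 + 1 = M ∧
    ∀ j < M, ∃ s, wt s = j

theorem Wt.zero (T : Type) [AddCommGroup T] : Wt T 0 := by
  intro M h1 h2
  have : M = 1 := by simpa using le_antisymm h2 h1
  subst this
  refine ⟨fun _ => 0, Rz.one.congr fun _ => rfl, rfl, fun j hj => ⟨0, ?_⟩⟩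
  have : j = 0 := by omega
  exact this.symm

theorem Wt.step {T : Type} [AddCommGroup T] {n : ℕ} (h : Wt T n) : Wt (T × F) (n + 1) := by
  intro M h1 h2
  rw [pow_succ] at h2
  obtain ⟨wt, hR, h0, hj⟩ := h (M - M / 2) (by omega) (by omega)
  refine ⟨fun s => wt s.1 + if s.2 = 0 then M / 2 else 0, ?_, ?_, ?_⟩
  · refine ((hR.comap (AddMonoidHom.fst T F)).mul
      ((Rz.base.comap (AddMonoidHom.snd T F)).pow (M / 2))).congr fun s => ?_
    obtain ⟨s, t⟩ := s
    change 3 ^ wt s * (if t = 0 then 3 else 1) ^ (M / 2) =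
      3 ^ (wt s + if t = 0 then M / 2 else 0)
    rw [pow_add]
    split_ifs
    · rfl
    · rw [one_pow, pow_zero]
  · change wt 0 + (if (0 : F) = 0 then M / 2 else 0) + 1 = M
    rw [if_pos rfl]; omega
  · intro j hjM
    by_cases hc : j < M - M / 2
    · obtain ⟨s, hs⟩ := hj j hc
      refine ⟨(s, 1), ?_⟩
      change wt s + (if (1 : F) = 0 then M / 2 else 0) = j
      rw [if_neg one_ne_zero, hs, add_zero]
    · obtain ⟨s, hs⟩ := hj (j - M / 2) (by omega)
      refine ⟨(s, 0), ?_⟩
      change wt s + (if (0 : F) = 0 then M / 2 else 0) = j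
      rw [if_pos rfl, hs]; omega

theorem Wt.congr {T T' : Type} [AddCommGroup T] [AddCommGroup T'] {n : ℕ} (h : Wt T n)
    (e : T' ≃+ T) : Wt T' n := by
  intro M h1 h2
  obtain ⟨wt, hR, h0, hj⟩ := h M h1 h2
  refine ⟨fun s => wt (e s), hR.comap e.toAddMonoidHom, ?_, fun j hjM => ?_⟩
  · change wt (e 0) + 1 = M
    rw [map_zero]; exact h0
  · obtain ⟨s, hs⟩ := hj j hjM
    refine ⟨e.symm s, ?_⟩
    change wt (e (e.symm s)) = j
    rw [AddEquiv.apply_symm_apply]; exact hs

/-- interchange equivalence -/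
def swapE (S : Type) [AddCommGroup S] : (S × F) × (S × F) ≃+ ((S × S) × F) × F where
  toFun p := (((p.1.1, p.2.1), p.1.2), p.2.2)
  invFun q := ((q.1.1.1, q.1.2), (q.1.1.2, q.2))
  left_inv _ := rfl
  right_inv _ := rfl
  map_add' _ _ := rfl

/-- A space of `K` variables with its tree and its weights. -/
theorem exists_space (K : ℕ) : ∃ (S : Type) (_ : AddCommGroup S) (_ : Module F S) (_ : Finite S),
    Nonempty (Tree S) ∧ Nat.card S = 3 ^ K ∧ Wt (S × S) (2 * K) := by
  induction K with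
  | zero =>
    exact ⟨PUnit, inferInstance, inferInstance, inferInstance, ⟨Tree.base⟩,
      by rw [Nat.card_unique, pow_zero], Wt.zero _⟩
  | succ K ih =>
    obtain ⟨S, _, _, _, ⟨T⟩, hS, hW⟩ := ih
    refine ⟨S × F, inferInstance, inferInstance, inferInstance, ⟨T.step⟩, ?_, ?_⟩
    · rw [Nat.card_prod, hS, card_F, pow_succ]
    · exact (hW.step.step).congr (swapE S)

/-- Digit expansions: if each scale below `M` has at least eight points then every number
below `9^M` is a subset sum. -/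
theorem toggle_sum {P : Type} [Fintype P] [DecidableEq P] (wt : P → ℕ) (Om : Finset P) (M : ℕ)
    (h : ∀ j < M, 8 ≤ (Om.filter (fun s => wt s = j)).card) (i : ℕ) (hi : i < 9 ^ M) :
    ∃ E ⊆ Om, ∑ s ∈ E, 9 ^ wt s = i := by
  have key : ∀ m ≤ M, ∀ i < 9 ^ m, ∃ E ⊆ Om.filter (fun s => wt s < m),
      ∑ s ∈ E, 9 ^ wt s = i := by
    intro m
    induction m with
    | zero =>
      intro _ i hi
      refine ⟨∅, Finset.empty_subset _, ?_⟩
      rw [pow_zero] at hi
      rw [Finset.sum_empty]; omega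
    | succ m ih =>
      intro hm i hi
      have h9 : 0 < 9 ^ m := by positivity
      have hd : i / 9 ^ m < 9 := by
        rw [Nat.div_lt_iff_lt_mul h9, mul_comm, ← pow_succ]; exact hi
      obtain ⟨E, hE, hEs⟩ := ih (by omega) (i % 9 ^ m) (Nat.mod_lt _ h9)
      obtain ⟨D, hD, hDc⟩ := Finset.exists_subset_card_eq
        (s := Om.filter (fun s => wt s = m)) (n := i / 9 ^ m)
        (le_trans (by omega) (h m (by omega)))
      have hdisj : Disjoint E D := by
        rw [Finset.disjoint_left]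
        intro x hx hx'
        have h1 := (Finset.mem_filter.1 (hE hx)).2
        have h2 := (Finset.mem_filter.1 (hD hx')).2
        omega
      refine ⟨E ∪ D, ?_, ?_⟩
      · intro x hx
        rw [Finset.mem_filter]
        rcases Finset.mem_union.1 hx with h1 | h1
        · have h2 := Finset.mem_filter.1 (hE h1)
          exact ⟨h2.1, by omega⟩
        · have h2 := Finset.mem_filter.1 (hD h1)
          exact ⟨h2.1, by omega⟩
      · rw [Finset.sum_union hdisj, hEs]
        have : ∑ s ∈ D, 9 ^ wt s = ∑ s ∈ D, 9 ^ m := by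
          refine Finset.sum_congr rfl fun s hs => ?_
          rw [(Finset.mem_filter.1 (hD hs)).2]
        rw [this, Finset.sum_const, hDc, smul_eq_mul, mul_comm]
        exact Nat.mod_add_div i (9 ^ m)
  obtain ⟨E, hE, hs⟩ := key M le_rfl i hi
  exact ⟨E, hE.trans (Finset.filter_subset _ _), hs⟩

end Pool.Agent.Lib.MP_cfac74_al
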