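import Pool.Agent.Lib.MP_cfac74_al.Cls

/-! Realizable kernel size functions and operations on them. -/

namespace Pool.Agent.Lib.MP_cfac74_al

open Finset

/-- `L` is the kernel size function of a square trilinear form with parameter space `U`. -/
def Rz (U : Type) [AddCommGroup U] (L : U → ℕ) : Prop :=
  ∃ (X Y : Type) (_ : AddCommGroup X) (_ : AddCommGroup Y) (_ : Module F X) (_ : Module F Y)
    (_ : Finite X) (_ : Finite Y) (B : U → X → Y → F),
    Tri B ∧ Nat.card X = Nat.card Y ∧ ∀ u, lk B u = L u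

theorem lk_zero {U X Y : Type} [AddCommGroup U] [AddCommGroup X] [AddCommGroup Y]
    {B : U → X → Y → F} (h : Tri B) : lk B 0 = Nat.card X :=
  Nat.card_congr (Equiv.subtypeUnivEquiv fun x y => h.zeroU x y)

theorem card_mod (X : Type) [AddCommGroup X] [Module F X] [Finite X] :
    ∃ n, Nat.card X = 3 ^ n :=
  ⟨Module.finrank F X, by
    have := Module.natCard_eq_pow_finrank (K := F) (V := X)
    rw [this, card_F]⟩

section
variable {U : Type} [AddCommGroup U]

theorem Rz.zero_pow {L : U → ℕ} (h : Rz U L) : ∃ n, L 0 = 3 ^ n := by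
  obtain ⟨X, Y, _, _, _, _, _, _, B, hB, hc, hL⟩ := h
  obtain ⟨n, hn⟩ := card_mod X
  exact ⟨n, by rw [← hL, lk_zero hB, hn]⟩

theorem lk_dvd {X Y : Type} [AddCommGroup X] [AddCommGroup Y] 
    {B : U → X → Y → F} (h : Tri B) (u : U) : lk B u ∣ Nat.card X := by
  let K : AddSubgroup X :=
    { carrier := {x | ∀ y, B u x y = 0}
      add_mem' := fun {a b} ha hb y => by rw [h.addX, ha y, hb y, add_zero]
      zero_mem' := fun y => h.zeroX u y
      neg_mem' := fun {a} ha y => by
        have := h.addX u a (-a) y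
        rw [add_neg_cancel, h.zeroX, ha y, zero_add] at this
        exact this.symm }
  exact AddSubgroup.card_addSubgroup_dvd_card K

theorem Rz.dvd {L : U → ℕ} (h : Rz U L) (u : U) : L u ∣ L 0 := by
  obtain ⟨X, Y, _, _, _, _, _, _, B, hB, hc, hL⟩ := h
  rw [← hL, ← hL, lk_zero hB]
  exact lk_dvd hB u

theorem Rz.odd {L : U → ℕ} (h : Rz U L) (u : U) : Odd (L u) := by
  obtain ⟨n, hn⟩ := h.zero_pow
  have := h.dvd u
  rw [hn] at this
  obtain ⟨k, _, hk⟩ := (Nat.dvd_prime_pow Nat.prime_three).1 this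
  rw [hk]
  exact Odd.pow (by decide)

theorem Rz.le {L : U → ℕ} (h : Rz U L) (u : U) : L u ≤ L 0 := by
  obtain ⟨n, hn⟩ := h.zero_pow
  exact Nat.le_of_dvd (by rw [hn]; positivity) (h.dvd u)

theorem Rz.neg {L : U → ℕ} (h : Rz U L) (u : U) : L (-u) = L u := by
  obtain ⟨X, Y, _, _, _, _, _, _, B, hB, hc, hL⟩ := h
  rw [← hL, ← hL]
  apply Nat.card_congr
  refine Equiv.subtypeEquivRight fun x => forall_congr' fun y => ?_
  rw [hB.negU, neg_eq_zero]

theorem Rz.congr {L L' : U → ℕ} (h : Rz U L) (e : ∀ u, L u = L' u) : Rz U L' := by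
  obtain ⟨X, Y, _, _, _, _, _, _, B, hB, hc, hL⟩ := h
  exact ⟨X, Y, _, _, inferInstance, inferInstance, inferInstance, inferInstance, B, hB, hc,
    fun u => by rw [hL, e]⟩

theorem Rz.one : Rz U (fun _ => 1) :=
  ⟨PUnit, PUnit, inferInstance, inferInstance, inferInstance, inferInstance, inferInstance,
    inferInstance, fun _ _ _ => 0,
    ⟨fun _ _ _ _ => (add_zero _).symm, fun _ _ _ _ => (add_zero _).symm,
      fun _ _ _ _ => (add_zero _).symm⟩, rfl,
    fun u => by
      unfold lk
      rw [Nat.card_eq_one_iff_unique]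
      exact ⟨⟨fun a b => Subtype.ext rfl⟩, ⟨⟨PUnit.unit, fun _ => rfl⟩⟩⟩⟩

theorem Rz.mul {L L' : U → ℕ} (h : Rz U L) (h' : Rz U L') : Rz U (fun u => L u * L' u) := by
  obtain ⟨X, Y, _, _, _, _, _, _, B, hB, hc, hL⟩ := h
  obtain ⟨X', Y', _, _, _, _, _, _, B', hB', hc', hL'⟩ := h'
  refine ⟨X × X', Y × Y', inferInstance, inferInstance, inferInstance, inferInstance,
    inferInstance, inferInstance, fun u x y => B u x.1 y.1 + B' u x.2 y.2,
    ⟨fun u u' x y => ?_, fun u x x' y => ?_, fun u x y y' => ?_⟩, ?_, fun u => ?_⟩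
  · rw [hB.addU, hB'.addU]; ring
  · rw [Prod.fst_add, Prod.snd_add, hB.addX, hB'.addX]; ring
  · rw [Prod.fst_add, Prod.snd_add, hB.addY, hB'.addY]; ring
  · rw [Nat.card_prod, Nat.card_prod, hc, hc']
  · have E : {x : X × X' // ∀ y : Y × Y', B u x.1 y.1 + B' u x.2 y.2 = 0} ≃
        {x : X // ∀ y, B u x y = 0} × {x : X' // ∀ y, B' u x y = 0} :=
      { toFun := fun x => (⟨x.1.1, fun y => by
            have := x.2 (y, 0)
            rw [hB'.zeroY, add_zero] at this
            exact this⟩, ⟨x.1.2, fun y => by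
            have := x.2 (0, y)
            rw [hB.zeroY, zero_add] at this
            exact this⟩)
        invFun := fun s => ⟨(s.1.1, s.2.1), fun y => by
            change B u s.1.1 y.1 + B' u s.2.1 y.2 = 0
            rw [s.1.2, s.2.2, add_zero]⟩
        left_inv := fun _ => rfl
        right_inv := fun _ => rfl }
    change Nat.card {x : X × X' // ∀ y : Y × Y', B u x.1 y.1 + B' u x.2 y.2 = 0} = _
    rw [Nat.card_congr E, Nat.card_prod]
    change lk B u * lk B' u = L u * L' u
    rw [hL, hL']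

theorem Rz.pow {L : U → ℕ} (h : Rz U L) (k : ℕ) : Rz U (fun u => L u ^ k) := by
  induction k with
  | zero => exact Rz.one.congr fun u => by rw [pow_zero]
  | succ k ih => exact (ih.mul h).congr fun u => by rw [pow_succ]

theorem Rz.prod {ι : Type} (s : Finset ι) (L : ι → U → ℕ) (h : ∀ i, Rz U (L i)) :
    Rz U (fun u => ∏ i ∈ s, L i u) := by
  classical
  induction s using Finset.induction_on with
  | empty => exact Rz.one.congr fun u => by rw [Finset.prod_empty]
  | insert i s hi ih =>
    exact ((h i).mul ih).congr fun u => by rw [Finset.prod_insert hi]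

theorem Rz.comap {U' : Type} [AddCommGroup U'] {L : U → ℕ} (h : Rz U L) (f : U' →+ U) :
    Rz U' (fun u => L (f u)) := by
  obtain ⟨X, Y, _, _, _, _, _, _, B, hB, hc, hL⟩ := h
  exact ⟨X, Y, _, _, inferInstance, inferInstance, inferInstance, inferInstance,
    fun u x y => B (f u) x y,
    ⟨fun u u' x y => by rw [map_add, hB.addU], fun u x x' y => hB.addX _ _ _ _,
      fun u x y y' => hB.addY _ _ _ _⟩, hc, fun u => hL (f u)⟩

theorem Rz.base : Rz F (fun z => if z = 0 then 3 else 1) := by
  refine ⟨F, F, inferInstance, inferInstance, inferInstance, inferInstance, inferInstance,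
    inferInstance, fun z x y => z * x * y, ⟨fun u u' x y => by ring, fun u x x' y => by ring,
    fun u x y y' => by ring⟩, rfl, fun z => ?_⟩
  change Nat.card {x : F // ∀ y, z * x * y = 0} = if z = 0 then 3 else 1
  split_ifs with hz
  · refine Eq.trans (Nat.card_congr (Equiv.subtypeUnivEquiv ?_)) card_F
    intro x y; rw [hz, zero_mul, zero_mul]
  · rw [Nat.card_eq_one_iff_unique]
    refine ⟨⟨fun a b => ?_⟩, ⟨⟨0, fun y => by rw [mul_zero, zero_mul]⟩⟩⟩
    have key : ∀ a : {x : F // ∀ y, z * x * y = 0}, a.1 = 0 := fun a => by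
      have := a.2 1
      rw [mul_one] at this
      exact (mul_eq_zero.1 this).resolve_left hz
    apply Subtype.ext
    rw [key a, key b]

/-- Bordering by a new variable. -/
theorem Rz.border {L : U → ℕ} (h : Rz U L) :
    Rz (U × F) (fun u => if u.2 = 0 then L u.1 * L 0 else 1) := by
  obtain ⟨X, Y, _, _, _, _, _, _, B, hB, hc, hL⟩ := h
  refine ⟨X × (Y →+ F), Y × (X →+ F), inferInstance, inferInstance, inferInstance, inferInstance,
    inferInstance, inferInstance,
    fun u x y => B u.1 x.1 y.1 + u.2 * (y.2 x.1 + x.2 y.1),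
    ⟨fun u u' x y => ?_, fun u x x' y => ?_, fun u x y y' => ?_⟩, ?_, fun u => ?_⟩
  · simp only [Prod.fst_add, Prod.snd_add]
    rw [hB.addU]; ring
  · simp only [Prod.fst_add, Prod.snd_add, AddMonoidHom.add_apply, map_add]
    rw [hB.addX]; ring
  · simp only [Prod.fst_add, Prod.snd_add, AddMonoidHom.add_apply, map_add]
    rw [hB.addY]; ring
  · rw [Nat.card_prod, Nat.card_prod, hc, card_dual, card_dual, hc]
  · obtain ⟨u, z⟩ := u
    change Nat.card {x : X × (Y →+ F) // ∀ y : Y × (X →+ F),
      B u x.1 y.1 + z * (y.2 x.1 + x.2 y.1) = 0} = if z = 0 then L u * L 0 else 1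
    split_ifs with hz
    · have E : {x : X × (Y →+ F) // ∀ y : Y × (X →+ F),
          B u x.1 y.1 + z * (y.2 x.1 + x.2 y.1) = 0} ≃
          {x : X // ∀ y, B u x y = 0} × (Y →+ F) :=
        { toFun := fun x => (⟨x.1.1, fun y => by
              have := x.2 (y, 0)
              simpa [hz] using this⟩, x.1.2)
          invFun := fun s => ⟨(s.1.1, s.2), fun y => by
              rw [hz, zero_mul, add_zero]
              exact s.1.2 y.1⟩
          left_inv := fun _ => rfl
          right_inv := fun _ => rfl }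
      rw [Nat.card_congr E, Nat.card_prod, card_dual, ← hc, ← hL u, ← hL 0, lk_zero hB]
      rfl
    · have key : ∀ a : {x : X × (Y →+ F) // ∀ y : Y × (X →+ F),
          B u x.1 y.1 + z * (y.2 x.1 + x.2 y.1) = 0}, a.1 = 0 := by
        rintro ⟨⟨x, η⟩, hx⟩
        have hx0 : x = 0 := by
          by_contra hne
          obtain ⟨w, hw⟩ := exists_dual_ne x hne
          have := hx (0, w)
          simp only [hB.zeroY, map_zero, zero_add, add_zero] at this
          exact hw ((mul_eq_zero.1 this).resolve_left hz)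
        have hη : η = 0 := by
          apply AddMonoidHom.ext
          intro y
          have := hx (y, 0)
          simp only [hx0, hB.zeroX, AddMonoidHom.zero_apply, zero_add] at this
          exact (mul_eq_zero.1 this).resolve_left hz
        exact Prod.ext hx0 hη
      rw [Nat.card_eq_one_iff_unique]
      refine ⟨⟨fun a b => Subtype.ext ?_⟩, ⟨⟨0, fun y => ?_⟩⟩⟩
      · rw [key a, key b]
      · simp only [Prod.fst_zero, Prod.snd_zero, hB.zeroX, map_zero, AddMonoidHom.zero_apply,
          add_zero, mul_zero]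

end

end Pool.Agent.Lib.MP_cfac74_al
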