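import Pool.Agent.Lib.MP_cfac74_al.Rz

/-! Pencils whose kernel is spanned by the vector of all monomials. -/

namespace Pool.Agent.Lib.MP_cfac74_al

open Finset

structure Tree (S : Type) [AddCommGroup S] where
  V : Type
  R : Type
  [acV : AddCommGroup V]
  [acR : AddCommGroup R]
  [mV : Module F V]
  [mR : Module F R]
  [fV : Finite V]
  [fR : Finite R]
  E : F × S → V → R → F
  tri : Tri E
  a : S → V
  inj : ∀ v r, (∀ x, E (1, v) x r = 0) → r = 0
  ker : ∀ v x, (∀ r, E (1, v) x r = 0) → ∃ c : F, x = c • a v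
  mem : ∀ v r, E (1, v) (a v) r = 0
  surj : ∀ v (φ : V →+ F), φ (a v) = 0 → ∃ r, ∀ x, E (1, v) x r = φ x
  interp : ∀ g : S → F, ∃ φ : V →+ F, ∀ v, φ (a v) = g v
  cardV : Nat.card V = 3 ^ Nat.card S
  cardR : 3 * Nat.card R = Nat.card V

attribute [instance] Tree.acV Tree.acR Tree.mV Tree.mR Tree.fV Tree.fR

theorem map_smulF {X : Type} [AddCommGroup X] [Module F X] (φ : X →+ F) (c : F) (x : X) :
    φ (c • x) = c * φ x := by
  have := ZMod.map_smul φ c x
  rw [this, smul_eq_mul]

/-- the tree without variables -/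
def Tree.base : Tree PUnit where
  V := F
  R := PUnit
  E := fun _ _ _ => 0
  tri := ⟨fun _ _ _ _ => (add_zero _).symm, fun _ _ _ _ => (add_zero _).symm,
      fun _ _ _ _ => (add_zero _).symm⟩
  a := fun _ => 1
  inj := fun _ _ _ => rfl
  ker := fun _ x _ => ⟨x, by rw [smul_eq_mul, mul_one]⟩
  mem := fun _ _ => rfl
  surj := fun _ φ h => ⟨PUnit.unit, fun x => by
    have : x = x • (1 : F) := by rw [smul_eq_mul, mul_one]
    rw [this, map_smulF, h, mul_zero]⟩
  interp := fun g => ⟨AddMonoidHom.mk' (fun x => g PUnit.unit * x) (fun x y => mul_add _ _ _),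
    fun v => mul_one _⟩
  cardV := by rw [card_F, Nat.card_unique, pow_one]
  cardR := by rw [card_F, Nat.card_unique]

theorem F_cases (t : F) : t = 0 ∨ t = 1 ∨ t = -1 := by
  revert t; decide

/-- adding one variable -/
def Tree.step {S : Type} [AddCommGroup S] [Finite S] (T : Tree S) : Tree (S × F) where
  V := T.V × T.V × T.V
  R := T.R × (T.V →+ F) × (T.V →+ F)
  E := fun u x r => T.E (u.1, u.2.1) x.1 r.1 +
    (u.1 * r.2.1 x.2.1 - u.2.2 * r.2.1 x.1) + (u.1 * r.2.2 x.2.2 - u.2.2 * r.2.2 x.2.1)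
  tri := ⟨fun u u' x r => by
      have h : ((u + u').1, (u + u').2.1) = (u.1, u.2.1) + (u'.1, u'.2.1) := rfl
      rw [h, T.tri.addU]
      simp only [Prod.fst_add, Prod.snd_add]
      ring,
    fun u x x' r => by
      simp only [Prod.fst_add, Prod.snd_add, T.tri.addX, map_add]
      ring,
    fun u x r r' => by
      simp only [Prod.fst_add, Prod.snd_add, T.tri.addY, AddMonoidHom.add_apply]
      ring⟩
  a := fun v => (T.a v.1, v.2 • T.a v.1, v.2 • v.2 • T.a v.1)
  inj := fun v r h => by
    obtain ⟨v, t⟩ := v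
    obtain ⟨r, s1, s2⟩ := r
    have h2 : s2 = 0 := by
      apply AddMonoidHom.ext; intro y
      have := h (0, 0, y)
      simpa [T.tri.zeroX] using this
    have h1 : s1 = 0 := by
      apply AddMonoidHom.ext; intro y
      have := h (0, y, 0)
      simpa [T.tri.zeroX, h2] using this
    have h0 : r = 0 := by
      apply T.inj v
      intro x
      have := h (x, 0, 0)
      simpa [h1, h2] using this
    rw [h0, h1, h2]; rfl
  ker := fun v x h => by
    obtain ⟨v, t⟩ := v
    obtain ⟨x, y1, y2⟩ := x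
    obtain ⟨c, hc⟩ := T.ker v x (fun r => by
      have := h (r, 0, 0)
      simpa using this)
    have h1 : y1 = t • x := by
      by_contra hne
      obtain ⟨w, hw⟩ := exists_dual_ne (y1 - t • x) (sub_ne_zero.2 hne)
      apply hw
      have := h (0, w, 0)
      rw [map_sub, map_smulF]
      simpa [T.tri.zeroY] using this
    have h2 : y2 = t • y1 := by
      by_contra hne
      obtain ⟨w, hw⟩ := exists_dual_ne (y2 - t • y1) (sub_ne_zero.2 hne)
      apply hw
      have := h (0, 0, w)
      rw [map_sub, map_smulF]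
      simpa [T.tri.zeroY] using this
    refine ⟨c, ?_⟩
    rw [h2, h1, hc]
    refine Prod.ext rfl (Prod.ext ?_ ?_)
    · change t • c • T.a v = c • t • T.a v
      rw [smul_comm]
    · change t • t • c • T.a v = c • t • t • T.a v
      rw [smul_comm t c, smul_comm t c]
  mem := fun v r => by
    obtain ⟨v, t⟩ := v
    obtain ⟨r, s1, s2⟩ := r
    simp only [T.mem, map_smulF]
    ring
  surj := fun v φ h => by
    obtain ⟨v, t⟩ := v
    let φ0 : T.V →+ F := AddMonoidHom.mk' (fun x => φ (x, 0, 0)) (fun x y => by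
      rw [← map_add]; simp)
    let φ1 : T.V →+ F := AddMonoidHom.mk' (fun x => φ (0, x, 0)) (fun x y => by
      rw [← map_add]; simp)
    let φ2 : T.V →+ F := AddMonoidHom.mk' (fun x => φ (0, 0, x)) (fun x y => by
      rw [← map_add]; simp)
    have hφ : ∀ x y z, φ (x, y, z) = φ0 x + φ1 y + φ2 z := by
      intro x y z
      change φ (x, y, z) = φ (x, 0, 0) + φ (0, y, 0) + φ (0, 0, z)
      rw [← map_add, ← map_add]
      simp
    let ψ : T.V →+ F := AddMonoidHom.mk' (fun x => φ0 x + t * φ1 x + t * t * φ2 x) (fun x y => by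
      simp only [map_add]; ring)
    have hψ : ∀ x, ψ x = φ0 x + t * φ1 x + t * t * φ2 x := fun _ => rfl
    obtain ⟨r, hr⟩ := T.surj v ψ (by
      rw [hφ, map_smulF, map_smulF, map_smulF] at h
      rw [hψ, ← h]; ring)
    let s1 : T.V →+ F := AddMonoidHom.mk' (fun x => φ1 x + t * φ2 x) (fun x y => by
      simp only [map_add]; ring)
    have hs1 : ∀ x, s1 x = φ1 x + t * φ2 x := fun _ => rfl
    refine ⟨(r, s1, φ2), fun x => ?_⟩
    obtain ⟨x, y1, y2⟩ := x
    change T.E (1, v) x r + (1 * s1 y1 - t * s1 x) + (1 * φ2 y2 - t * φ2 y1) = φ (x, y1, y2)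
    rw [hr, hψ, hs1, hs1, hφ]
    ring
  interp := fun g => by
    obtain ⟨φ0, h0⟩ := T.interp (fun v => g (v, 0))
    obtain ⟨φ1, h1⟩ := T.interp (fun v => g (v, -1) - g (v, 1))
    obtain ⟨φ2, h2⟩ := T.interp (fun v => - g (v, 0) - g (v, 1) - g (v, -1))
    refine ⟨AddMonoidHom.mk' (fun x => φ0 x.1 + φ1 x.2.1 + φ2 x.2.2) (fun x y => by
      simp only [Prod.fst_add, Prod.snd_add, map_add]; ring), fun v => ?_⟩
    obtain ⟨v, t⟩ := v
    change φ0 (T.a v) + φ1 (t • T.a v) + φ2 (t • t • T.a v) = g (v, t)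
    rw [map_smulF, map_smulF, map_smulF, h0, h1, h2]
    have h3 : (3 : F) = 0 := by decide
    rcases F_cases t with rfl | rfl | rfl
    · ring
    · linear_combination (-g (v, 1)) * h3
    · linear_combination (-g (v, -1)) * h3
  cardV := by
    rw [Nat.card_prod, Nat.card_prod, T.cardV, Nat.card_prod, card_F]
    rw [← pow_add, ← pow_add]
    congr 1
    ring
  cardR := by
    rw [Nat.card_prod, Nat.card_prod, Nat.card_prod, Nat.card_prod, card_dual, ← T.cardR]
    ring

theorem Tree.step_zero {S : Type} [AddCommGroup S] [Finite S] (T : Tree S) (v : S) (t : F)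
    (ht : t ≠ 0) : lk T.step.E (0, (v, t)) = 3 ^ Nat.card S := by
  rw [← T.cardV]
  have E : {x : T.V × T.V × T.V // ∀ r : T.R × (T.V →+ F) × (T.V →+ F),
      T.E (0, v) x.1 r.1 + (0 * r.2.1 x.2.1 - t * r.2.1 x.1) +
        (0 * r.2.2 x.2.2 - t * r.2.2 x.2.1) = 0} ≃ T.V :=
    { toFun := fun x => x.1.2.2
      invFun := fun y => ⟨(0, 0, y), fun r => by simp [T.tri.zeroX]⟩
      left_inv := fun x => by
        obtain ⟨⟨x, y1, y2⟩, h⟩ := x
        have h1 : y1 = 0 := by
          by_contra hne
          obtain ⟨w, hw⟩ := exists_dual_ne y1 hne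
          have := h (0, 0, w)
          simp only [T.tri.zeroY, AddMonoidHom.zero_apply, mul_zero, zero_mul, sub_zero,
            zero_sub, zero_add, neg_eq_zero] at this
          exact hw ((mul_eq_zero.1 this).resolve_left ht)
        have h0 : x = 0 := by
          by_contra hne
          obtain ⟨w, hw⟩ := exists_dual_ne x hne
          have := h (0, w, 0)
          simp only [T.tri.zeroY, AddMonoidHom.zero_apply, mul_zero, zero_mul, sub_zero,
            zero_sub, zero_add, add_zero, neg_eq_zero] at this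
          exact hw ((mul_eq_zero.1 this).resolve_left ht)
        apply Subtype.ext
        exact Prod.ext h0.symm (Prod.ext h1.symm rfl)
      right_inv := fun _ => rfl }
  exact Nat.card_congr E

end Pool.Agent.Lib.MP_cfac74_al
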