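import Pool.Agent.Lib.MP_cfac74_al.Count

/-! Trilinear forms and their kernels. -/

namespace Pool.Agent.Lib.MP_cfac74_al

open Finset

/-- `B` is additive in each of its three arguments. -/
structure Tri {U X Y : Type} [AddCommGroup U] [AddCommGroup X] [AddCommGroup Y]
    (B : U → X → Y → F) : Prop where
  addU : ∀ u u' x y, B (u + u') x y = B u x y + B u' x y
  addX : ∀ u x x' y, B u (x + x') y = B u x y + B u x' y
  addY : ∀ u x y y', B u x (y + y') = B u x y + B u x y'

section
variable {U X Y : Type} [AddCommGroup U] [AddCommGroup X] [AddCommGroup Y]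
  {B : U → X → Y → F}

theorem Tri.zeroU (h : Tri B) (x : X) (y : Y) : B 0 x y = 0 := by
  have := h.addU 0 0 x y
  rw [add_zero] at this
  simpa using this

theorem Tri.zeroX (h : Tri B) (u : U) (y : Y) : B u 0 y = 0 := by
  have := h.addX u 0 0 y
  rw [add_zero] at this
  simpa using this

theorem Tri.zeroY (h : Tri B) (u : U) (x : X) : B u x 0 = 0 := by
  have := h.addY u x 0 0
  rw [add_zero] at this
  simpa using this

theorem Tri.negU (h : Tri B) (u : U) (x : X) (y : Y) : B (-u) x y = - B u x y := by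
  have := h.addU u (-u) x y
  rw [add_neg_cancel, h.zeroU] at this
  exact (neg_eq_of_add_eq_zero_right this.symm).symm

/-- size of the left kernel -/
noncomputable def lk (B : U → X → Y → F) (u : U) : ℕ := Nat.card {x : X // ∀ y, B u x y = 0}

/-- size of the right kernel -/
noncomputable def rk (B : U → X → Y → F) (u : U) : ℕ := Nat.card {y : Y // ∀ x, B u x y = 0}

theorem lk_rk (h : Tri B) [Finite X] [Finite Y] (u : U) :
    Nat.card X * rk B u = Nat.card Y * lk B u :=
  pairCount (B u) (fun x x' y => h.addX u x x' y) (fun x y y' => h.addY u x y y')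

theorem symCount (h : Tri B) [Finite U] [Finite X] [Finite Y] [Fintype U] :
    Nat.card U * Nat.card {q : (X × Y) × (X × Y) // ∀ u, B u q.1.1 q.2.2 = B u q.2.1 q.1.2} =
      Nat.card X * Nat.card Y * ∑ u : U, lk B u * rk B u := by
  have A := dualCount (Z := X × Y) (U := U) (V := X × Y)
    (fun z u v => B u z.1 v.2 - B u v.1 z.2)
    (fun z u u' v => by
      change B (u + u') z.1 v.2 - B (u + u') v.1 z.2 =
        B u z.1 v.2 - B u v.1 z.2 + (B u' z.1 v.2 - B u' v.1 z.2)
      rw [h.addU, h.addU]; ring)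
    (fun z u v v' => by
      change B u z.1 (v.2 + v'.2) - B u (v.1 + v'.1) z.2 =
        B u z.1 v.2 - B u v.1 z.2 + (B u z.1 v'.2 - B u v'.1 z.2)
      rw [h.addX, h.addY]; ring)
  have e1 : Nat.card {q : (X × Y) × (X × Y) // ∀ u, B u q.1.1 q.2.2 - B u q.2.1 q.1.2 = 0} =
      Nat.card {q : (X × Y) × (X × Y) // ∀ u, B u q.1.1 q.2.2 = B u q.2.1 q.1.2} := by
    apply Nat.card_congr
    exact Equiv.subtypeEquivRight fun q => forall_congr' fun u => sub_eq_zero
  have e2 : Nat.card {q : (X × Y) × U // ∀ v : X × Y, B q.2 q.1.1 v.2 - B q.2 v.1 q.1.2 = 0} =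
      ∑ u : U, lk B u * rk B u := by
    have E : {q : (X × Y) × U // ∀ v : X × Y, B q.2 q.1.1 v.2 - B q.2 v.1 q.1.2 = 0} ≃
        Σ u : U, {x : X // ∀ y, B u x y = 0} × {y : Y // ∀ x, B u x y = 0} :=
      { toFun := fun q => ⟨q.1.2, ⟨q.1.1.1, fun y => by
            have := q.2 (0, y)
            simp only [h.zeroX, sub_zero] at this
            exact this⟩, ⟨q.1.1.2, fun x => by
            have := q.2 (x, 0)
            simp only [h.zeroY, zero_sub, neg_eq_zero] at this
            exact this⟩⟩
        invFun := fun s => ⟨((s.2.1.1, s.2.2.1), s.1), fun v => by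
            change B s.1 s.2.1.1 v.2 - B s.1 v.1 s.2.2.1 = 0
            rw [s.2.1.2, s.2.2.2, sub_zero]⟩
        left_inv := fun _ => rfl
        right_inv := fun _ => rfl }
    rw [Nat.card_congr E, Nat.card_sigma]
    refine Finset.sum_congr rfl fun u _ => ?_
    rw [Nat.card_prod]; rfl
  rw [e1, e2, Nat.card_prod] at A
  exact A

end

end Pool.Agent.Lib.MP_cfac74_al
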