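import Pool.Agent.Lib.MP_cfac74_al.Tree

/-! The block with a prescribed degeneracy pattern. -/

namespace Pool.Agent.Lib.MP_cfac74_al

open Finset

theorem Tri.smulU {U X Y : Type} [AddCommGroup U] [AddCommGroup X] [AddCommGroup Y] [Module F U]
    {B : U → X → Y → F} (h : Tri B) (c : F) (u : U) (x : X) (y : Y) :
    B (c • u) x y = c * B u x y :=
  map_smulF (AddMonoidHom.mk' (fun u => B u x y) (fun u u' => h.addU u u' x y)) c u

theorem Tri.smulX {U X Y : Type} [AddCommGroup U] [AddCommGroup X] [AddCommGroup Y] [Module F X]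
    {B : U → X → Y → F} (h : Tri B) (c : F) (u : U) (x : X) (y : Y) :
    B u (c • x) y = c * B u x y :=
  map_smulF (AddMonoidHom.mk' (fun x => B u x y) (fun x x' => h.addX u x x' y)) c x

theorem Tri.smulY {U X Y : Type} [AddCommGroup U] [AddCommGroup X] [AddCommGroup Y] [Module F Y]
    {B : U → X → Y → F} (h : Tri B) (c : F) (u : U) (x : X) (y : Y) :
    B u x (c • y) = c * B u x y :=
  map_smulF (AddMonoidHom.mk' (fun y => B u x y) (fun y y' => h.addY u x y y')) c y

theorem Tri.subY {U X Y : Type} [AddCommGroup U] [AddCommGroup X] [AddCommGroup Y]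
    {B : U → X → Y → F} (h : Tri B) (u : U) (x : X) (y y' : Y) :
    B u x (y - y') = B u x y - B u x y' :=
  map_sub (AddMonoidHom.mk' (fun y => B u x y) (fun y y' => h.addY u x y y')) y y'

theorem sq_one_of_ne (z : F) (hz : z ≠ 0) : z * z = 1 := by
  revert z; decide

/-- every function of two variables comes from a bilinear form on the tree vectors -/
theorem exists_bilin {S1 S2 : Type} [AddCommGroup S1] [AddCommGroup S2] [Finite S1]
    (T1 : Tree S1) (T2 : Tree S2) (f : S1 → S2 → F) :
    ∃ Φ : T1.V → T2.V → F, (∀ x x' w, Φ (x + x') w = Φ x w + Φ x' w) ∧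
      (∀ x w w', Φ x (w + w') = Φ x w + Φ x w') ∧ ∀ v v', Φ (T1.a v) (T2.a v') = f v v' := by
  classical
  have := Fintype.ofFinite S1
  choose φ hφ using fun p : S1 => T1.interp (fun v => if v = p then 1 else 0)
  choose ψ hψ using fun p : S1 => T2.interp (fun v => f p v)
  refine ⟨fun x w => ∑ p : S1, φ p x * ψ p w, fun x x' w => ?_, fun x w w' => ?_,
    fun v v' => ?_⟩
  · rw [← Finset.sum_add_distrib]
    refine Finset.sum_congr rfl fun p _ => ?_
    rw [map_add, add_mul]
  · rw [← Finset.sum_add_distrib]
    refine Finset.sum_congr rfl fun p _ => ?_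
    rw [map_add, mul_add]
  · simp only [hφ, hψ]
    simp

/-- The two sided block. -/
theorem twoSided {S1 S2 : Type} [AddCommGroup S1] [AddCommGroup S2] [Module F S1] [Module F S2]
    [Finite S1] [Finite S2]
    (T1 : Tree S1) (T2 : Tree S2) (f : S1 → S2 → F) :
    Rz (F × (S1 × S2)) (fun u => if u.1 = 0 then lk T1.E (0, u.2.1) * rk T2.E (0, u.2.2)
      else if f (u.1 • u.2.1) (u.1 • u.2.2) = 0 then 3 else 1) := by
  obtain ⟨Φ, hΦx, hΦw, hΦ⟩ := exists_bilin T1 T2 f
  let B : F × (S1 × S2) → T1.V × T2.R → T1.R × T2.V → F := fun u x y =>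
    T1.E (u.1, u.2.1) x.1 y.1 + T2.E (u.1, u.2.2) y.2 x.2 + u.1 * Φ x.1 y.2
  have hBdef : ∀ u x y, B u x y =
    T1.E (u.1, u.2.1) x.1 y.1 + T2.E (u.1, u.2.2) y.2 x.2 + u.1 * Φ x.1 y.2 := fun _ _ _ => rfl
  have hΦ0x : ∀ w, Φ 0 w = 0 := fun w => by
    have := hΦx 0 0 w
    rw [add_zero] at this
    simpa using this
  have hΦ0w : ∀ x, Φ x 0 = 0 := fun x => by
    have := hΦw x 0 0
    rw [add_zero] at this
    simpa using this
  have hΦs : ∀ (c : F) x w, Φ (c • x) w = c * Φ x w := fun c x w =>
    map_smulF (AddMonoidHom.mk' (fun x => Φ x w) (fun x x' => hΦx x x' w)) c x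
  have hB : Tri B :=
    ⟨fun u u' x y => by
        have h1 : ((u + u').1, (u + u').2.1) = (u.1, u.2.1) + (u'.1, u'.2.1) := rfl
        have h2 : ((u + u').1, (u + u').2.2) = (u.1, u.2.2) + (u'.1, u'.2.2) := rfl
        rw [hBdef, hBdef, hBdef, h1, h2, T1.tri.addU, T2.tri.addU]
        simp only [Prod.fst_add]
        ring,
      fun u x x' y => by
        rw [hBdef, hBdef, hBdef]
        simp only [Prod.fst_add, Prod.snd_add, T1.tri.addX, T2.tri.addY, hΦx]
        ring,
      fun u x y y' => by
        rw [hBdef, hBdef, hBdef]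
        simp only [Prod.fst_add, Prod.snd_add, T1.tri.addY, T2.tri.addX, hΦw]
        ring⟩
  -- the kernel at first coordinate one
  have h1 : ∀ v v', lk B (1, (v, v')) = if f v v' = 0 then 3 else 1 := by
    intro v v'
    split_ifs with hf
    · let ψ : T2.V →+ F := AddMonoidHom.mk' (fun w => - Φ (T1.a v) w) (fun w w' => by
        rw [hΦw]; ring)
      obtain ⟨r, hr⟩ := T2.surj v' ψ (by
        change - Φ (T1.a v) (T2.a v') = 0
        rw [hΦ, hf, neg_zero])
      have hr' : ∀ w, T2.E (1, v') w r = - Φ (T1.a v) w := hr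
      obtain ⟨φ, hφ⟩ := T1.interp (fun _ => 1)
      have E : {x : T1.V × T2.R // ∀ y, B (1, (v, v')) x y = 0} ≃ F :=
        { toFun := fun x => φ x.1.1
          invFun := fun c => ⟨(c • T1.a v, c • r), fun y => by
            rw [hBdef]
            simp only
            rw [T1.tri.smulX, T1.mem, T2.tri.smulY, hr', hΦs]
            ring⟩
          left_inv := fun x => by
            obtain ⟨⟨x, ρ⟩, hx⟩ := x
            obtain ⟨c, hc⟩ := T1.ker v x (fun r => by
              have := hx (r, 0)
              rw [hBdef] at this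
              simpa [T2.tri.zeroX, hΦ0w] using this)
            have hcφ : φ x = c := by
              rw [hc, map_smulF, hφ, mul_one]
            have hρ : ρ = c • r := by
              rw [← sub_eq_zero]
              apply T2.inj v'
              intro w
              have := hx (0, w)
              rw [hBdef] at this
              simp only [T1.tri.zeroY, zero_add, one_mul] at this
              rw [T2.tri.subY, T2.tri.smulY, hr']
              rw [hc, hΦs] at this
              rw [← this]; ring
            apply Subtype.ext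
            change (φ x • T1.a v, φ x • r) = (x, ρ)
            rw [hcφ, hρ, hc]
          right_inv := fun c => by
            change φ (c • T1.a v) = c
            rw [map_smulF, hφ, mul_one] }
      exact (Nat.card_congr E).trans card_F
    · change Nat.card {x : T1.V × T2.R // ∀ y, B (1, (v, v')) x y = 0} = 1
      rw [Nat.card_eq_one_iff_unique]
      refine ⟨⟨fun a b => ?_⟩, ⟨⟨0, fun y => hB.zeroX _ _⟩⟩⟩
      have key : ∀ a : {x : T1.V × T2.R // ∀ y, B (1, (v, v')) x y = 0}, a.1 = 0 := by
        rintro ⟨⟨x, ρ⟩, hx⟩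
        obtain ⟨c, hc⟩ := T1.ker v x (fun r => by
              have := hx (r, 0)
              rw [hBdef] at this
              simpa [T2.tri.zeroX, hΦ0w] using this)
        have hc0 : c = 0 := by
          have := hx (0, T2.a v')
          rw [hBdef] at this
          simp only [T1.tri.zeroY, T2.mem, zero_add, one_mul, hc, hΦs, hΦ] at this
          exact (mul_eq_zero.1 this).resolve_right hf
        have hx0 : x = 0 := by rw [hc, hc0, zero_smul]
        have hρ0 : ρ = 0 := by
          apply T2.inj v'
          intro w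
          have := hx (0, w)
          rw [hBdef] at this
          simp only [T1.tri.zeroY, zero_add, one_mul, hx0, hΦ0x, add_zero] at this
          exact this
        exact Prod.ext hx0 hρ0
      apply Subtype.ext
      rw [key a, key b]
  refine ⟨T1.V × T2.R, T1.R × T2.V, inferInstance, inferInstance, inferInstance, inferInstance,
    inferInstance, inferInstance, B, hB, ?_, fun u => ?_⟩
  · rw [Nat.card_prod, Nat.card_prod, ← T1.cardR, ← T2.cardR]
    ring
  · obtain ⟨z, v, v'⟩ := u
    change lk B (z, (v, v')) = if z = 0 then lk T1.E (0, v) * rk T2.E (0, v')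
      else if f (z • v) (z • v') = 0 then 3 else 1
    by_cases hz : z = 0
    · rw [if_pos hz, hz]
      have E : {x : T1.V × T2.R // ∀ y : T1.R × T2.V, B (0, (v, v')) x y = 0} ≃
          {x : T1.V // ∀ y, T1.E (0, v) x y = 0} × {y : T2.R // ∀ x, T2.E (0, v') x y = 0} :=
        { toFun := fun x => (⟨x.1.1, fun y => by
              have := x.2 (y, 0)
              rw [hBdef] at this
              simpa [T2.tri.zeroX] using this⟩, ⟨x.1.2, fun y => by
              have := x.2 (0, y)
              rw [hBdef] at this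
              simpa [T1.tri.zeroY] using this⟩)
          invFun := fun s => ⟨(s.1.1, s.2.1), fun y => by
              rw [hBdef]
              simp only
              rw [s.1.2, s.2.2]; simp⟩
          left_inv := fun _ => rfl
          right_inv := fun _ => rfl }
      change Nat.card {x : T1.V × T2.R // ∀ y : T1.R × T2.V, B (0, (v, v')) x y = 0} = _
      rw [Nat.card_congr E, Nat.card_prod]
      rfl
    · rw [if_neg hz, ← h1]
      apply Nat.card_congr
      refine Equiv.subtypeEquivRight fun x => forall_congr' fun y => ?_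
      have e : (z, (v, v')) = z • ((1 : F), (z • v, z • v')) := by
        change (z, (v, v')) = (z * 1, (z • z • v, z • z • v'))
        rw [mul_one, smul_smul, smul_smul, sq_one_of_ne z hz, one_smul, one_smul]
      rw [e, hB.smulU]
      constructor
      · intro h; exact (mul_eq_zero.1 h).resolve_left hz
      · intro h; rw [h, mul_zero]

/-- The size at the origin of the two sided block. -/
theorem twoSided_zero {S1 S2 : Type} [AddCommGroup S1] [AddCommGroup S2]
    [Finite S1] [Finite S2]
    (T1 : Tree S1) (T2 : Tree S2) :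
    3 * (lk T1.E (0, (0 : S1)) * rk T2.E (0, (0 : S2))) =
      3 ^ (Nat.card S1 + Nat.card S2) := by
  have h1 : lk T1.E (0, (0 : S1)) = Nat.card T1.V := lk_zero T1.tri
  have h2 : rk T2.E (0, (0 : S2)) = Nat.card T2.R :=
    Nat.card_congr (Equiv.subtypeUnivEquiv fun y x => T2.tri.zeroU x y)
  have h3 := T2.cardR
  rw [T2.cardV] at h3
  rw [h1, h2, T1.cardV, pow_add, ← h3]
  ring

/-- The size at the toggle points of the two sided block. -/
theorem twoSided_toggle {S1 S2 : Type} [AddCommGroup S1] [AddCommGroup S2]
    [Finite S1] [Finite S2]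
    (T1 : Tree S1) (T2 : Tree S2) (v : S1) (t : F) (ht : t ≠ 0) (v' : S2) (t' : F)
    (ht' : t' ≠ 0) :
    3 * (lk T1.step.E (0, (v, t)) * rk T2.step.E (0, (v', t'))) =
      3 ^ (Nat.card S1 + Nat.card S2) := by
  have h1 := T1.step_zero v t ht
  have h2 := T2.step_zero v' t' ht'
  have h3 := lk_rk T2.step.tri (0, (v', t'))
  rw [← T2.step.cardR, h2] at h3
  have h4 : 0 < Nat.card T2.step.R := Nat.card_pos
  have h5 : 3 * rk T2.step.E (0, (v', t')) = 3 ^ Nat.card S2 := by
    apply Nat.eq_of_mul_eq_mul_left h4
    rw [← h3]; ring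
  rw [h1, pow_add, ← h5]
  ring

end Pool.Agent.Lib.MP_cfac74_al
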